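import Pool.Agent.T6.H4.AP.Law

/-!
# Translation numbers
-/

set_option autoImplicit false
set_option linter.unusedSectionVars false

namespace Pool.Agent.T6.H4.AP

open MeasureTheory Filter Topology AddCircle UnitAddTorus
open scoped ComplexConjugate ENNReal NNReal

lemma flow_add' (r s : ℝ) (n : ℕ) : flow (r + s) n = flow r n + flow s n := by
  unfold flow
  rw [← AddCircle.coe_add]
  congr 1
  ring

/-- The common small values of the flow are relatively dense. -/
lemma exists_small {S : Finset ℕ} (hS : ∀ p ∈ S, p.Prime) {δ : ℝ} (hδ : 0 < δ) :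
    ∃ R : ℝ, 0 < R ∧ ∀ a : ℝ, ∃ s ∈ Set.Icc a (a + R), ∀ p ∈ S, ‖flow s p‖ < δ := by
  set f : (S → UnitAddCircle) → ℝ := fun x => max 0 (δ - ‖x‖) with hf
  have hfc : Continuous f := by
    rw [hf]
    fun_prop
  have hpos : 0 < ∫ x, f x ∂(Measure.pi fun _ : S => haar) := by
    refine hfc.integral_pos_of_hasCompactSupport_nonneg_nonzero (x := 0)
      (HasCompactSupport.of_compactSpace f) (fun x => le_max_left _ _) ?_
    rw [hf]
    simp only [norm_zero, sub_zero]
    rw [max_eq_right hδ.le]
    exact hδ.ne'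
  have h1 := (kw_real hS hfc).eventually (lt_mem_nhds hpos)
  obtain ⟨pa, hpa, pb, hpb, h2⟩ := eventually_prod_iff.1 h1
  have hpa' : ∀ A : ℝ, pa A := eventually_top.1 hpa
  obtain ⟨R, hR⟩ := (hpb.and (eventually_gt_atTop (0 : ℝ))).exists
  refine ⟨R, hR.2, fun a => ?_⟩
  have h3 := h2 (hpa' a) hR.1
  by_contra h4
  push Not at h4
  have h5 : ∀ t ∈ Set.uIcc a (a + R), f (fun p : S => flow t p) = 0 := by
    intro t ht
    rw [Set.uIcc_of_le (by linarith [hR.2])] at ht
    obtain ⟨p, hp, h6⟩ := h4 t ht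
    rw [hf]
    refine max_eq_left ?_
    have h7 := norm_le_pi_norm (fun p : S => flow t p) ⟨p, hp⟩
    simp only at h7
    linarith
  have h6 : ∫ t in a..a + R, f (fun p : S => flow t p) = 0 := by
    rw [intervalIntegral.integral_congr h5]
    simp
  unfold wm at h3
  simp only at h3
  rw [h6, smul_zero] at h3
  exact lt_irrefl _ h3

section

variable {E : Type*} [NormedAddCommGroup E] [NormedSpace ℝ E] [MeasurableSpace E] [BorelSpace E]
  [SecondCountableTopology E] [CompleteSpace E]

variable {U : ℕ → (ℕ → UnitAddCircle) → E} {η : ℕ → ℝ} {u : ℝ → E}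

lemma Approx.iiv (h : Approx U η u) (x : ℕ) (a b : ℝ) :
    IntervalIntegrable (fun t => u t - U x (flow t)) volume a b := by
  have h1 : LocallyIntegrable (fun t => u t - U x (flow t)) volume := by
    intro t
    refine ⟨Set.Ioc (t - 1 / 2) (t - 1 / 2 + 1), ?_, h.integrable x (t - 1 / 2)⟩
    exact Ioc_mem_nhds (by linarith) (by linarith)
  rw [intervalIntegrable_iff]
  exact (h1.integrableOn_isCompact isCompact_uIcc).mono_set Set.uIoc_subset_uIcc

lemma Approx.iiu (h : Approx U η u) (a b : ℝ) : IntervalIntegrable u volume a b := by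
  have h1 := (h.iiv 0 a b).add ((h.cyl 0).continuous_flow.intervalIntegrable a b)
  refine h1.congr fun t _ => ?_
  simp

lemma Approx.iis (h : Approx U η u) (s a b : ℝ) :
    IntervalIntegrable (fun t => u (t + s)) volume a b := by
  have h1 := (h.iiu (a + s) (b + s)).comp_add_right s
  simpa using h1

/-- **Translation numbers.** -/
theorem Approx.translation (h : Approx U η u) {S' : Finset ℕ} (hS' : ∀ p ∈ S', p.Prime) {ε : ℝ}
    (hε : 0 < ε) : ∃ R : ℝ, 0 < R ∧ ∀ a : ℝ, ∃ s ∈ Set.Icc a (a + R),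
      (∀ p ∈ S', ‖flow s p‖ < ε) ∧ ∀ A : ℝ, ∫ t in A..A + 1, ‖u (t + s) - u t‖ ≤ ε := by
  classical
  obtain ⟨x, hx⟩ := (h.tend.eventually (gt_mem_nhds (by positivity : (0 : ℝ) < ε / 3))).exists
  obtain ⟨S, hS, Ψ, hΨ, hU⟩ := h.cyl x
  obtain ⟨δ, hδ, hΨ'⟩ := Metric.uniformContinuous_iff.1
    (CompactSpace.uniformContinuous_of_continuous hΨ) (ε / 3) (by positivity)
  obtain ⟨R, hR, h1⟩ := exists_small (S := S ∪ S') (fun p hp => by
    rcases Finset.mem_union.1 hp with h | h
    · exact hS p h
    · exact hS' p h) (lt_min hδ hε)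
  refine ⟨R, hR, fun a => ?_⟩
  obtain ⟨s, hs, h2⟩ := h1 a
  refine ⟨s, hs, fun p hp => (h2 p (Finset.mem_union_right _ hp)).trans_le (min_le_right _ _),
    fun A => ?_⟩
  have h3 : ∀ t : ℝ, ‖U x (flow (t + s)) - U x (flow t)‖ ≤ ε / 3 := by
    intro t
    rw [hU, hU, ← dist_eq_norm]
    refine (hΨ' ?_).le
    rw [dist_pi_lt_iff hδ]
    rintro ⟨p, hp⟩
    show dist (flow (t + s) p) (flow t p) < δ
    rw [dist_eq_norm, flow_add', add_sub_cancel_left]
    exact (h2 p (Finset.mem_union_left _ hp)).trans_le (min_le_left _ _)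
  have h4 : ∫ t in A..A + 1, ‖u (t + s) - U x (flow (t + s))‖ ≤ η x := by
    have h5 := intervalIntegral.integral_comp_add_right (a := A) (b := A + 1)
      (fun t => ‖u t - U x (flow t)‖) s
    rw [h5]
    have h6 := h.unit x (A + s)
    have h7 : A + 1 + s = A + s + 1 := by ring
    rw [h7]
    exact h6
  have h5 := h.unit x A
  have i1 : IntervalIntegrable (fun t => ‖u (t + s) - U x (flow (t + s))‖) volume A (A + 1) := by
    have h6 := (h.ii x (A + s) (A + 1 + s)).comp_add_right s
    simpa using h6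
  have i2 := h.ii x A (A + 1)
  have i3 : IntervalIntegrable (fun _ : ℝ => ε / 3) volume A (A + 1) :=
    continuous_const.intervalIntegrable _ _
  calc ∫ t in A..A + 1, ‖u (t + s) - u t‖
      ≤ ∫ t in A..A + 1, (‖u (t + s) - U x (flow (t + s))‖ + ‖u t - U x (flow t)‖ + ε / 3) := by
        refine intervalIntegral.integral_mono_on (by linarith)
          (((h.iis s A (A + 1)).sub (h.iiu A (A + 1))).norm) ((i1.add i2).add i3) fun t _ => ?_
        have h6 : u (t + s) - u t = (u (t + s) - U x (flow (t + s))) - (u t - U x (flow t)) +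
            (U x (flow (t + s)) - U x (flow t)) := by abel
        rw [h6]
        refine (norm_add_le _ _).trans ?_
        have h7 := norm_sub_le (u (t + s) - U x (flow (t + s))) (u t - U x (flow t))
        linarith [h3 t]
    _ = (∫ t in A..A + 1, ‖u (t + s) - U x (flow (t + s))‖) +
        (∫ t in A..A + 1, ‖u t - U x (flow t)‖) + ε / 3 := by
        rw [intervalIntegral.integral_add (i1.add i2) i3, intervalIntegral.integral_add i1 i2,
          intervalIntegral.integral_const]
        simp
    _ ≤ ε := by linarith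

end

end Pool.Agent.T6.H4.AP
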