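import Pool.Agent.T6.H4.AP.Euler
import Pool.Agent.T6.H4.AP.Tors

/-!
# Several Euler products jointly
-/

set_option autoImplicit false
set_option linter.unusedSectionVars false

namespace Pool.Agent.T6.H4.AP

open MeasureTheory Filter Topology AddCircle UnitAddTorus Polynomial
open Pool.Agent.W350.Edge
open scoped ComplexConjugate ENNReal NNReal

section Cylinders

variable {E : Type*} [NormedAddCommGroup E] [NormedSpace ℝ E] [MeasurableSpace E] [BorelSpace E]
  [SecondCountableTopology E] [CompleteSpace E]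
variable {F : Type*} [NormedAddCommGroup F] [NormedSpace ℝ F] [MeasurableSpace F] [BorelSpace F]
  [SecondCountableTopology F] [CompleteSpace F]

open Classical in
/-- Extension by zero. -/
noncomputable def ext0 (S : Finset ℕ) (x : S → UnitAddCircle) (n : ℕ) : UnitAddCircle :=
  if h : n ∈ S then x ⟨n, h⟩ else 0

lemma continuous_ext0 (S : Finset ℕ) : Continuous (ext0 S) := by
  refine continuous_pi fun n => ?_
  unfold ext0
  by_cases h : n ∈ S
  · simp only [h, dite_true]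
    exact continuous_apply _
  · simp only [h, dite_false]
    exact continuous_const

lemma Cyl.of_dep {U : (ℕ → UnitAddCircle) → E} {S : Finset ℕ} (hS : ∀ p ∈ S, p.Prime)
    (hc : Continuous U) (hd : ∀ ω ω', (∀ p ∈ S, ω p = ω' p) → U ω = U ω') : Cyl U := by
  refine ⟨S, hS, fun x => U (ext0 S x), hc.comp (continuous_ext0 S), fun ω => hd _ _ fun p hp => ?_⟩
  unfold ext0
  rw [dif_pos hp]
  rfl

lemma Cyl.dep {U : (ℕ → UnitAddCircle) → E} (h : Cyl U) : ∃ S : Finset ℕ, (∀ p ∈ S, p.Prime) ∧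
    Continuous U ∧ ∀ ω ω', (∀ p ∈ S, ω p = ω' p) → U ω = U ω' := by
  obtain ⟨S, hS, Ψ, hΨ, h1⟩ := id h
  refine ⟨S, hS, h.continuous, fun ω ω' h2 => ?_⟩
  rw [h1, h1]
  congr 1
  funext p
  exact h2 p p.2

lemma Cyl.prodMk {U : (ℕ → UnitAddCircle) → E} {V : (ℕ → UnitAddCircle) → F} (hU : Cyl U)
    (hV : Cyl V) : Cyl fun ω => (U ω, V ω) := by
  classical
  obtain ⟨S, hS, h1, h2⟩ := hU.dep
  obtain ⟨T, hT, h3, h4⟩ := hV.dep
  refine Cyl.of_dep (S := S ∪ T) (fun p hp => ?_) (h1.prodMk h3) fun ω ω' h => ?_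
  · rcases Finset.mem_union.1 hp with h | h
    · exact hS p h
    · exact hT p h
  · rw [h2 ω ω' fun p hp => h p (Finset.mem_union_left _ hp),
      h4 ω ω' fun p hp => h p (Finset.mem_union_right _ hp)]

lemma Cyl.pi {ι : Type} [Fintype ι] {U : ι → (ℕ → UnitAddCircle) → E} (hU : ∀ j, Cyl (U j)) :
    Cyl fun ω j => U j ω := by
  classical
  choose S hS h1 h2 using fun j => (hU j).dep
  refine Cyl.of_dep (S := Finset.univ.biUnion S) (fun p hp => ?_) (continuous_pi h1)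
    fun ω ω' h => ?_
  · obtain ⟨j, _, hj⟩ := Finset.mem_biUnion.1 hp
    exact hS j p hj
  · funext j
    exact h2 j ω ω' fun p hp => h p (Finset.mem_biUnion.2 ⟨j, Finset.mem_univ _, hp⟩)

variable {U : ℕ → (ℕ → UnitAddCircle) → E} {η : ℕ → ℝ} {u : ℝ → E}

lemma Approx.pair (h : Approx U η u) {b : (ℕ → UnitAddCircle) → F} (hb : Cyl b) :
    Approx (fun x ω => (b ω, U x ω)) η (fun t => (b (flow t), u t)) where
  cyl x := hb.prodMk (h.cyl x)
  tend := h.tend
  rand x y hxy := by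
    refine le_trans (le_of_eq ?_) (h.rand x y hxy)
    congr 1
    funext ω
    rw [Prod.mk_sub_mk, sub_self, Prod.norm_mk, norm_zero, max_eq_right (norm_nonneg _)]
  wind x y hxy A := by
    refine le_trans (le_of_eq ?_) (h.wind x y hxy A)
    congr 1
    funext ω
    rw [Prod.mk_sub_mk, sub_self, Prod.norm_mk, norm_zero, max_eq_right (norm_nonneg _)]
  lim := by
    filter_upwards [h.lim] with t ht
    exact tendsto_const_nhds.prodMk_nhds ht

end Cylinders

section Factor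

variable {t : ℕ → ℕ → ℂ} {S : Finset ℕ} {D w : ℝ} {B : ℕ → ℂ[X]}

lemma Vx_isCyl (ht : WB t w S D) (τ : ℝ) (x : ℕ) : Cyl (Vx t w S τ x) := by
  refine Cyl.of_dep (S := (Finset.range x).filter Nat.Prime)
    (fun p hp => (Finset.mem_filter.1 hp).2) (Vx_cyl ht τ x) fun ω ω' h => ?_
  unfold Vx
  refine Finset.sum_congr rfl fun p hp => ?_
  rw [h p hp]

/-- A bad factor on the circle. -/
noncomputable def bf (B : ℕ → ℂ[X]) (w τ : ℝ) (p : ℕ) (x : UnitAddCircle) : ℂ :=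
  ((B p).eval ((p : ℂ) ^ (-(sp w τ)) * X x))⁻¹

lemma bf_flow (τ r : ℝ) {p : ℕ} (hp : p.Prime) :
    bf B w τ p (flow r p) = ((B p).eval ((p : ℂ) ^ (-(sp w (τ + r)))))⁻¹ := by
  unfold bf
  rw [cpow_flow w τ r hp]

lemma eval_ne {p : ℕ} (hp : p.Prime) (hB : ∀ r : ℝ, (B p).eval ((p : ℂ) ^ (-(sp w r))) ≠ 0)
    (τ : ℝ) (x : UnitAddCircle) : (B p).eval ((p : ℂ) ^ (-(sp w τ)) * X x) ≠ 0 := by
  obtain ⟨r, rfl⟩ := flow_surj hp x
  rw [← cpow_flow w τ r hp]
  exact hB _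

lemma continuous_bf {p : ℕ} (hp : p.Prime)
    (hB : ∀ r : ℝ, (B p).eval ((p : ℂ) ^ (-(sp w r))) ≠ 0) (τ : ℝ) : Continuous (bf B w τ p) := by
  unfold bf
  refine Continuous.inv₀ ?_ (eval_ne hp hB τ)
  exact (B p).continuous.comp (continuous_const.mul continuous_X)

/-- The product of the bad factors. -/
noncomputable def bb (B : ℕ → ℂ[X]) (w : ℝ) (S : Finset ℕ) (τ : ℝ) (ω : ℕ → UnitAddCircle) : ℂ :=
  ∏ p ∈ S.filter Nat.Prime, bf B w τ p (ω p)

lemma bb_isCyl (hB : ∀ p ∈ S, p.Prime → ∀ r : ℝ, (B p).eval ((p : ℂ) ^ (-(sp w r))) ≠ 0) (τ : ℝ) :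
    Cyl (bb B w S τ) := by
  refine Cyl.of_dep (S := S.filter Nat.Prime) (fun p hp => (Finset.mem_filter.1 hp).2) ?_
    fun ω ω' h => ?_
  · unfold bb
    refine continuous_finsetProd _ fun p hp => ?_
    obtain ⟨h1, h2⟩ := Finset.mem_filter.1 hp
    exact (continuous_bf h2 (hB p h1 h2) τ).comp (continuous_apply p)
  · unfold bb
    refine Finset.prod_congr rfl fun p hp => ?_
    rw [h p hp]

lemma bb_ne (hB : ∀ p ∈ S, p.Prime → ∀ r : ℝ, (B p).eval ((p : ℂ) ^ (-(sp w r))) ≠ 0) (τ : ℝ)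
    (ω : ℕ → UnitAddCircle) : bb B w S τ ω ≠ 0 := by
  unfold bb
  refine Finset.prod_ne_zero_iff.2 fun p hp => ?_
  obtain ⟨h1, h2⟩ := Finset.mem_filter.1 hp
  exact inv_ne_zero (eval_ne h2 (hB p h1 h2) τ _)

/-- The partial products are `b exp V`. -/
lemma prod_fac (τ : ℝ) {x : ℕ} (hx : ∀ p ∈ S, p < x) (F : ℕ → UnitAddCircle → ℂ)
    (hbad : ∀ p ∈ S, p.Prime → ∀ y, F p y = bf B w τ p y)
    (hgood : ∀ p, p ∉ S → p.Prime → ∀ y, F p y = Complex.exp (cc t w S τ p * X y + Rf t w S τ p y))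
    (ω : ℕ → UnitAddCircle) :
    ∏ p ∈ Nat.primesBelow x, F p (ω p) = bb B w S τ ω * Complex.exp (Vx t w S τ x ω) := by
  classical
  have h1 : Vx t w S τ x ω = ∑ p ∈ (Nat.primesBelow x).filter (· ∉ S),
      (cc t w S τ p * X (ω p) + Rf t w S τ p (ω p)) := by
    unfold Vx Nat.primesBelow
    rw [Finset.sum_filter (fun p => p ∉ S)]
    refine Finset.sum_congr rfl fun p _ => ?_
    by_cases h2 : p ∈ S
    swap
    · rw [if_pos h2]
    · rw [if_neg (not_not.2 h2)]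
      have h3 : cc t w S τ p = 0 := by
        unfold cc term aa
        rw [if_neg fun h4 : p.Prime ∧ p ∉ S => h4.2 h2]
        simp
      have h4 : Rf t w S τ p (ω p) = 0 := by
        unfold Rf
        rw [if_neg fun h4 : p.Prime ∧ p ∉ S => h4.2 h2]
      rw [h3, h4, zero_mul, add_zero]
  have h2 : bb B w S τ ω = ∏ p ∈ (Nat.primesBelow x).filter (· ∈ S), F p (ω p) := by
    unfold bb
    have h3 : S.filter Nat.Prime = (Nat.primesBelow x).filter (· ∈ S) := by
      ext p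
      simp only [Finset.mem_filter, Nat.mem_primesBelow]
      exact ⟨fun h => ⟨⟨hx p h.1, h.2⟩, h.1⟩, fun h => ⟨h.2, h.1.2⟩⟩
    rw [h3]
    refine Finset.prod_congr rfl fun p hp => ?_
    obtain ⟨h4, h5⟩ := Finset.mem_filter.1 hp
    exact (hbad p h5 (Nat.mem_primesBelow.1 h4).2 _).symm
  rw [h1, h2, Complex.exp_sum, ← Finset.prod_filter_mul_prod_filter_not (Nat.primesBelow x) (· ∈ S)]
  congr 1
  refine Finset.prod_congr rfl fun p hp => ?_
  obtain ⟨h4, h5⟩ := Finset.mem_filter.1 hp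
  exact hgood p h5 (Nat.mem_primesBelow.1 h4).2 _

/-- A function on the circle with the values of the Euler factors. -/
lemma good_fac (ht : WB t w S D) (τ : ℝ) {p : ℕ} (hp : p.Prime) (hpS : p ∉ S) (f : ℂ → ℂ)
    (hf : ∀ r : ℝ, f ((p : ℂ) ^ (-(sp w r))) = fac t S B (sp w r) p) (y : UnitAddCircle) :
    f ((p : ℂ) ^ (-(sp w τ)) * X y) = Complex.exp (cc t w S τ p * X y + Rf t w S τ p y) := by
  obtain ⟨r, rfl⟩ := flow_surj hp y
  rw [← cpow_flow w τ r hp, hf, Rf_flow, cc, term_add]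
  unfold fac
  rw [if_neg hpS]
  have h1 := GG_eq ht 0 (by simp) (τ + r) p
  unfold GG at h1
  rw [if_pos ⟨hp, hpS⟩] at h1
  simp only [add_zero, neg_zero, zero_mul, Complex.exp_zero, one_mul] at h1
  rw [h1]

end Factor

end Pool.Agent.T6.H4.AP
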