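import Pool.Agent.T6.H4.AP.Rand
import Pool.Agent.Y149.TL.Defs

/-!
# Value distribution on the edge line: definitions

`wm f (A, T)` is the mean value of `f` over the window `[A, A + T]`, and `windows` is the filter of the
windows `(A, T)` with `T → ∞`, uniformly in `A ∈ ℝ` (`Pool.Agent.T6.H4.AP.KW`).  `PP` is the probability
measure on the space of the sequences `ω = (ω_n)` of elements of `ℝ/ℤ` for which the `ω_n` are independent
and uniformly distributed, and `X x = exp(2πix)` for `x ∈ ℝ/ℤ` (`Pool.Agent.T6.H4.AP.Rand`).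
-/

set_option autoImplicit false

namespace Pool.Agent.T6.H4.AP

open Polynomial Filter Topology MeasureTheory
open Pool.Agent.Y149.TL (edge)

/-- The partial product `∏_{p < x} 1 / B_p(p^{-s})`. -/
noncomputable def partialProduct (B : Nat.Primes → ℂ[X]) (x : ℕ) (s : ℂ) : ℂ :=
  ∏ p ∈ (Finset.range x).subtype Nat.Prime, ((B p).eval ((p : ℂ) ^ (-s)))⁻¹

/-- The random product `∏_{p < x} 1 / B_p(p^{-w/2-1-iτ} X_p)`, where `X_p = X (ω p)`, `p` prime, are
independent random variables which are uniformly distributed on the unit circle. -/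
noncomputable def randomProduct (w : ℤ) (B : Nat.Primes → ℂ[X]) (τ : ℝ) (x : ℕ)
    (ω : ℕ → UnitAddCircle) : ℂ :=
  ∏ p ∈ (Finset.range x).subtype Nat.Prime, ((B p).eval ((p : ℂ) ^ (-(edge w τ)) * X (ω p)))⁻¹

/-- The part of the angle `‖s - s₀‖ ≤ K (Re s - Re s₀)` with the vertex `s₀ = w/2 + 1 + iτ` in the half
plane `Re s > w/2 + 1`. -/
def angle (w : ℤ) (τ K : ℝ) : Set ℂ :=
  {s : ℂ | (w : ℝ) / 2 + 1 < s.re ∧ ‖s - edge w τ‖ ≤ K * (s.re - ((w : ℝ) / 2 + 1))}

end Pool.Agent.T6.H4.AP
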