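import Pool.Agent.W350.Edge3

/-!
# Sums over large primes on the edge are small in the mean, uniformly in all unit intervals
-/

set_option autoImplicit false

namespace Pool.Agent.T6.H4.AP

open MeasureTheory Filter Topology Finset
open Pool.Agent.W350.Edge (lg CC CC_pos block_mean)

lemma block_shift {F : Finset ℕ} {K L : ℕ} (hK : 1 ≤ K)
    (hF : ∀ p ∈ F, p.Prime ∧ K ≤ lg p ∧ lg p < K + L) (c : ℕ → ℂ) (M : ℝ) (hM : 0 ≤ M)
    (hc : ∀ p ∈ F, ‖c p‖ ≤ M / p) (A : ℝ) :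
    ∫ t in A..A + 1, ‖∑ p ∈ F, c p * Complex.exp (-(t * Real.log p : ℝ) * Complex.I)‖ ^ 2 ≤
      72 * CC ^ 2 * M ^ 2 * L / K ^ 2 := by
  have h1 := block_mean hK hF (fun p => c p * Complex.exp (-(A * Real.log p : ℝ) * Complex.I)) M hM
    (fun p hp => by
      rw [norm_mul]
      have h2 : ‖Complex.exp (-(A * Real.log p : ℝ) * Complex.I)‖ = 1 := by
        rw [← Complex.ofReal_neg]
        exact Complex.norm_exp_ofReal_mul_I _
      rw [h2, mul_one]
      exact hc p hp) 0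
  refine le_trans (le_of_eq ?_) h1
  have h3 := intervalIntegral.integral_comp_add_right (a := 0) (b := 1)
    (fun t : ℝ => ‖∑ p ∈ F, c p * Complex.exp (-(t * Real.log p : ℝ) * Complex.I)‖ ^ 2) A
  rw [zero_add, add_comm 1 A] at h3
  rw [← h3]
  congr 1
  funext τ
  congr 2
  refine sum_congr rfl fun p _ => ?_
  rw [mul_assoc, ← Complex.exp_add]
  congr 2
  push_cast
  ring

/-- **The tail, uniformly in all unit intervals.** -/
theorem tail_fin {F : Finset ℕ} {K : ℕ} (hK : 1 ≤ K)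
    (hF : ∀ p ∈ F, p.Prime ∧ K ≤ lg p) (c : ℕ → ℂ) (M : ℝ) (hM : 0 ≤ M)
    (hc : ∀ p ∈ F, ‖c p‖ ≤ M / p) (A : ℝ) :
    ∫ t in A..A + 1, ‖∑ p ∈ F, c p * Complex.exp (-(t * Real.log p : ℝ) * Complex.I)‖ ^ 2 ≤
      864 * CC ^ 2 * M ^ 2 / K := by
  classical
  set idx : ℕ → ℕ := fun p => Nat.log 2 (lg p / K) with hidx
  set n : ℕ := F.sup idx + 1 with hn
  have hmaps : ∀ p ∈ F, idx p ∈ range n := by
    intro p hp
    have := Finset.le_sup (f := idx) hp
    exact mem_range.2 (by omega)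
  set G : ℕ → Finset ℕ := fun j => F.filter fun p => idx p = j with hG
  have hGF : ∀ j, ∀ p ∈ G j, p.Prime ∧ 2 ^ j * K ≤ lg p ∧ lg p < 2 ^ j * K + 2 ^ j * K := by
    intro j p hp
    obtain ⟨hpF, hj⟩ := mem_filter.1 hp
    obtain ⟨hpp, hKp⟩ := hF p hpF
    have h0 : lg p / K ≠ 0 := by
      have : 1 ≤ lg p / K := (Nat.one_le_div_iff (by omega)).2 hKp
      omega
    have h1 : 2 ^ j ≤ lg p / K := by
      rw [← hj]
      exact Nat.pow_log_le_self 2 h0
    have h2 : lg p / K < 2 ^ (j + 1) := by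
      rw [← hj]
      exact Nat.lt_pow_succ_log_self one_lt_two _
    refine ⟨hpp, (Nat.le_div_iff_mul_le (by omega)).1 h1, ?_⟩
    have h3 := (Nat.div_lt_iff_lt_mul (by omega : 0 < K)).1 h2
    calc lg p < 2 ^ (j + 1) * K := h3
      _ = 2 ^ j * K + 2 ^ j * K := by ring
  set f : ℕ → ℝ → ℂ := fun j t =>
    ∑ p ∈ G j, c p * Complex.exp (-(t * Real.log p : ℝ) * Complex.I) with hf
  have hfc : ∀ j, Continuous (f j) := by
    intro j
    rw [hf]
    fun_prop
  have hsum : ∀ t : ℝ, ∑ p ∈ F, c p * Complex.exp (-(t * Real.log p : ℝ) * Complex.I) =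
      ∑ j ∈ range n, f j t := by
    intro t
    rw [hf]
    exact (sum_fiberwise_of_maps_to hmaps _).symm
  have hw : ∑ j ∈ range n, (3 / 4 : ℝ) ^ j ≤ 4 := by
    rw [geom_sum_eq (by norm_num)]
    have : (0:ℝ) ≤ (3 / 4) ^ n := by positivity
    norm_num
    linarith
  have hpt : ∀ t : ℝ, ‖∑ j ∈ range n, f j t‖ ^ 2 ≤
      4 * ∑ j ∈ range n, (4 / 3 : ℝ) ^ j * ‖f j t‖ ^ 2 := by
    intro t
    have h1 : ‖∑ j ∈ range n, f j t‖ ^ 2 ≤ (∑ j ∈ range n, ‖f j t‖) ^ 2 :=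
      pow_le_pow_left₀ (norm_nonneg _) (norm_sum_le _ _) 2
    have hpos : 0 < ∑ j ∈ range n, (3 / 4 : ℝ) ^ j :=
      sum_pos (fun j _ => by positivity) ⟨0, mem_range.2 (by omega)⟩
    have h2 := sq_sum_div_le_sum_sq_div (range n) (fun j => ‖f j t‖)
      (g := fun j => (3 / 4 : ℝ) ^ j) (fun j _ => by positivity)
    rw [div_le_iff₀ hpos] at h2
    have h3 : ∑ j ∈ range n, ‖f j t‖ ^ 2 / (3 / 4 : ℝ) ^ j =
        ∑ j ∈ range n, (4 / 3 : ℝ) ^ j * ‖f j t‖ ^ 2 := by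
      refine sum_congr rfl fun j _ => ?_
      rw [div_eq_mul_inv, ← inv_pow]
      norm_num
      ring
    rw [h3] at h2
    have h4 : 0 ≤ ∑ j ∈ range n, (4 / 3 : ℝ) ^ j * ‖f j t‖ ^ 2 :=
      sum_nonneg fun j _ => by positivity
    calc _ ≤ _ := h1
      _ ≤ _ := h2
      _ ≤ _ := by
        rw [mul_comm]
        exact mul_le_mul_of_nonneg_right hw h4
  have hblock : ∀ j, ∫ t in A..A + 1, ‖f j t‖ ^ 2 ≤
      72 * CC ^ 2 * M ^ 2 / K * (1 / 2 : ℝ) ^ j := by
    intro j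
    have hKj : 1 ≤ 2 ^ j * K := Nat.mul_pos (by positivity) hK
    have h1 := block_shift hKj (hGF j) c M hM (fun p hp => hc p (mem_filter.1 hp).1) A
    refine h1.trans (le_of_eq ?_)
    have hK0 : (K : ℝ) ≠ 0 := by
      have : (0 : ℝ) < K := by exact_mod_cast hK
      exact this.ne'
    have h2 : (1 / 2 : ℝ) ^ j * 2 ^ j = 1 := by
      rw [← mul_pow]
      norm_num
    have h3 : (2 : ℝ) ^ j ≠ 0 := by positivity
    push_cast
    rw [div_mul_eq_mul_div, div_eq_div_iff (by positivity) hK0]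
    linear_combination (-(72 * CC ^ 2 * M ^ 2 * 2 ^ j * (K:ℝ) ^ 2)) * h2
  calc ∫ t in A..A + 1, ‖∑ p ∈ F, c p * Complex.exp (-(t * Real.log p : ℝ) * Complex.I)‖ ^ 2
      = ∫ t in A..A + 1, ‖∑ j ∈ range n, f j t‖ ^ 2 := by
        congr 1
        funext t
        rw [hsum]
    _ ≤ ∫ t in A..A + 1, 4 * ∑ j ∈ range n, (4 / 3 : ℝ) ^ j * ‖f j t‖ ^ 2 := by
        refine intervalIntegral.integral_mono_on (by linarith) ?_ ?_ (fun t _ => hpt t)
        · exact Continuous.intervalIntegrable (by fun_prop) _ _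
        · exact Continuous.intervalIntegrable (by fun_prop) _ _
    _ = 4 * ∑ j ∈ range n, (4 / 3 : ℝ) ^ j * ∫ t in A..A + 1, ‖f j t‖ ^ 2 := by
        rw [intervalIntegral.integral_const_mul, intervalIntegral.integral_finsetSum]
        · congr 1
          refine sum_congr rfl fun j _ => ?_
          rw [intervalIntegral.integral_const_mul]
        · intro j _
          exact Continuous.intervalIntegrable (by fun_prop) _ _
    _ ≤ 4 * ∑ j ∈ range n, (4 / 3 : ℝ) ^ j * (72 * CC ^ 2 * M ^ 2 / K * (1 / 2 : ℝ) ^ j) := by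
        gcongr with j _
        exact hblock j
    _ = 4 * (72 * CC ^ 2 * M ^ 2 / K) * ∑ j ∈ range n, (2 / 3 : ℝ) ^ j := by
        rw [mul_sum, mul_sum]
        refine sum_congr rfl fun j _ => ?_
        have : (2 / 3 : ℝ) ^ j = (4 / 3) ^ j * (1 / 2) ^ j := by
          rw [← mul_pow]
          norm_num
        rw [this]
        ring
    _ ≤ 4 * (72 * CC ^ 2 * M ^ 2 / K) * 3 := by
        refine mul_le_mul_of_nonneg_left ?_ (by positivity)
        rw [geom_sum_eq (by norm_num)]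
        have : (0:ℝ) ≤ (2 / 3) ^ n := by positivity
        norm_num
        linarith
    _ = 864 * CC ^ 2 * M ^ 2 / K := by ring

end Pool.Agent.T6.H4.AP
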