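import Pool.Agent.T6.H4.AP.Law
import Pool.Agent.T6.H4.AP.Tail
import Pool.Agent.W350.Edge6

/-!
# Euler factors as functions on the circle
-/

set_option autoImplicit false
set_option linter.unusedSectionVars false

namespace Pool.Agent.T6.H4.AP

open MeasureTheory Filter Topology AddCircle UnitAddTorus Polynomial
open Pool.Agent.W350.Edge
open scoped ComplexConjugate ENNReal NNReal

/-- The flow is onto the circle, for every prime. -/
lemma flow_surj {p : ℕ} (hp : p.Prime) (x : UnitAddCircle) : ∃ r : ℝ, flow r p = x := by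
  obtain ⟨y, rfl⟩ := QuotientAddGroup.mk_surjective x
  have hl : Real.log p ≠ 0 := (Real.log_pos (by exact_mod_cast hp.one_lt)).ne'
  refine ⟨-(y * (2 * Real.pi)) / Real.log p, ?_⟩
  unfold flow
  congr 1
  have := Real.pi_ne_zero
  field_simp

lemma flow_add (r s : ℝ) (n : ℕ) : flow (r + s) n = flow r n + flow s n := by
  unfold flow
  rw [← AddCircle.coe_add]
  congr 1
  ring

lemma cpow_flow (w τ r : ℝ) {p : ℕ} (hp : p.Prime) :
    (p : ℂ) ^ (-(sp w (τ + r))) = (p : ℂ) ^ (-(sp w τ)) * X (flow r p) := by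
  have hp0 : (p : ℂ) ≠ 0 := by exact_mod_cast hp.ne_zero
  rw [X_flow, Complex.cpow_def_of_ne_zero hp0, Complex.cpow_def_of_ne_zero hp0, ← Complex.exp_add]
  congr 1
  unfold sp
  push_cast
  ring

section

variable {t : ℕ → ℕ → ℂ} {S : Finset ℕ} {D w : ℝ}

/-- The first coefficient. -/
noncomputable def cc (t : ℕ → ℕ → ℂ) (w : ℝ) (S : Finset ℕ) (τ : ℝ) (p : ℕ) : ℂ :=
  term (aa t w S) τ p

lemma term_add (a : ℕ → ℂ) (τ r : ℝ) (p : ℕ) : term a τ p * X (flow r p) = term a (τ + r) p := by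
  unfold term
  split_ifs with hp
  · rw [X_flow, mul_assoc, ← Complex.exp_add]
    congr 2
    push_cast
    ring
  · rw [zero_mul]

lemma norm_term (a : ℕ → ℂ) (τ : ℝ) {D : ℝ} (hD : 0 ≤ D) (ha : ∀ p, ‖a p‖ ≤ D) (p : ℕ) :
    ‖term a τ p‖ ≤ D / p := by
  unfold term
  split_ifs with hp
  · rw [norm_mul, norm_div, Complex.norm_natCast]
    have h2 : ‖Complex.exp (-((τ : ℂ) * (Real.log p : ℝ)) * Complex.I)‖ = 1 := by
      rw [← Complex.ofReal_mul, ← Complex.ofReal_neg]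
      exact Complex.norm_exp_ofReal_mul_I _
    rw [h2, mul_one]
    exact div_le_div_of_nonneg_right (ha p) (Nat.cast_nonneg _)
  · rw [norm_zero]
    positivity

lemma norm_cc (ht : WB t w S D) (τ : ℝ) (p : ℕ) : ‖cc t w S τ p‖ ≤ D / p :=
  norm_term _ τ ht.nonneg (norm_aa ht) p

open Classical in
/-- The remainder. -/
noncomputable def Rf (t : ℕ → ℕ → ℂ) (w : ℝ) (S : Finset ℕ) (τ : ℝ) (p : ℕ) (x : UnitAddCircle) :
    ℂ :=
  if p.Prime ∧ p ∉ S then
    ∑' m : ℕ, t p (m + 1 + 1) * ((p : ℂ) ^ (-(sp w τ)) * X x) ^ (m + 1 + 1) / ((m + 1 : ℕ) + 1 : ℂ)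
  else 0

lemma pow_flow (w τ r : ℝ) {p : ℕ} (hp : p.Prime) (m : ℕ) :
    ((p : ℂ) ^ (-(sp w τ)) * X (flow r p)) ^ (m + 1 + 1) =
      (p : ℂ) ^ (-(((m + 1 : ℕ) + 1 : ℂ) * sp w (τ + r))) := by
  rw [← cpow_flow w τ r hp, ← Complex.cpow_nat_mul]
  congr 1
  push_cast
  ring

lemma Rf_flow (τ r : ℝ) (p : ℕ) : Rf t w S τ p (flow r p) = RR t S p (sp w (τ + r)) := by
  unfold Rf RR
  split_ifs with h
  · refine tsum_congr fun m => ?_
    rw [pow_flow w τ r h.1 m]
  · rfl

lemma norm_Rf (ht : WB t w S D) (τ : ℝ) (p : ℕ) (x : UnitAddCircle) :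
    ‖Rf t w S τ p x‖ ≤ 2 * D / (p : ℝ) ^ 2 := by
  by_cases hp : p.Prime
  · obtain ⟨r, rfl⟩ := flow_surj hp x
    rw [Rf_flow]
    exact RR_bound ht p (by rw [sp_re])
  · unfold Rf
    rw [if_neg fun h => hp h.1, norm_zero]
    have := ht.nonneg
    positivity

lemma continuous_Rf (ht : WB t w S D) (τ : ℝ) (p : ℕ) : Continuous (Rf t w S τ p) := by
  unfold Rf
  split_ifs with h
  · refine continuous_tsum (fun m => ?_) (geo_summable h.1 D) (fun m x => ?_)
    · have := continuous_X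
      fun_prop
    · obtain ⟨r, rfl⟩ := flow_surj h.1 x
      rw [pow_flow w τ r h.1 m]
      exact T_bound ht h.1 h.2 (m + 1) (by rw [sp_re])
  · exact continuous_const

/-- The partial sums of the logarithm. -/
noncomputable def Vx (t : ℕ → ℕ → ℂ) (w : ℝ) (S : Finset ℕ) (τ : ℝ) (x : ℕ)
    (ω : ℕ → UnitAddCircle) : ℂ :=
  ∑ p ∈ (Finset.range x).filter Nat.Prime, (cc t w S τ p * X (ω p) + Rf t w S τ p (ω p))

lemma cc_zero (τ : ℝ) {p : ℕ} (hp : ¬ p.Prime) : cc t w S τ p = 0 := by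
  unfold cc term
  rw [if_neg hp]

lemma Rf_zero (τ : ℝ) {p : ℕ} (hp : ¬ p.Prime) (x : UnitAddCircle) : Rf t w S τ p x = 0 := by
  unfold Rf
  rw [if_neg fun h => hp h.1]

lemma Vx_flow (τ r : ℝ) (x : ℕ) : Vx t w S τ x (flow r) =
    ps (aa t w S) (τ + r) x + ∑ p ∈ Finset.range x, RR t S p (sp w (τ + r)) := by
  unfold Vx ps cc
  rw [← Finset.sum_add_distrib, Finset.sum_filter]
  refine Finset.sum_congr rfl fun p _ => ?_
  split_ifs with hp
  · rw [term_add, Rf_flow]
  · unfold term RR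
    rw [if_neg hp, if_neg fun h => hp h.1, add_zero]

lemma Vx_sub (τ : ℝ) {x y : ℕ} (hxy : x ≤ y) (ω : ℕ → UnitAddCircle) :
    Vx t w S τ y ω - Vx t w S τ x ω =
      ∑ p ∈ (Finset.Ico x y).filter Nat.Prime, cc t w S τ p * X (ω p) +
        ∑ p ∈ (Finset.Ico x y).filter Nat.Prime, Rf t w S τ p (ω p) := by
  unfold Vx
  rw [← Finset.sum_add_distrib, Finset.sum_filter, Finset.sum_filter, Finset.sum_filter,
    Finset.sum_Ico_eq_sub _ hxy]

lemma Vx_cyl (ht : WB t w S D) (τ : ℝ) (x : ℕ) : Continuous (Vx t w S τ x) := by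
  unfold Vx
  refine continuous_finsetSum _ fun p _ => ?_
  refine Continuous.add ?_ ?_
  · exact continuous_const.mul (continuous_X.comp (continuous_apply p))
  · exact (continuous_Rf ht τ p).comp (continuous_apply p)

lemma inv_sq_tail {x : ℕ} (hx : 1 ≤ x) (y : ℕ) :
    ∑ p ∈ (Finset.Ico x y).filter Nat.Prime, (1 : ℝ) / (p : ℝ) ^ 2 ≤ 2 / x := by
  have h1 := sum_Ioo_inv_sq_le (α := ℝ) (x - 1) y
  have h2 : Finset.Ioo (x - 1) y = Finset.Ico x y := by
    ext n
    simp only [Finset.mem_Ioo, Finset.mem_Ico]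
    omega
  rw [h2] at h1
  have h3 : ((x - 1 : ℕ) : ℝ) + 1 = x := by
    rw [Nat.cast_sub hx]
    simp
  rw [h3] at h1
  refine le_trans ?_ h1
  refine (Finset.sum_le_sum_of_subset_of_nonneg (Finset.filter_subset _ _)
    fun p _ _ => by positivity).trans (le_of_eq ?_)
  refine Finset.sum_congr rfl fun p _ => ?_
  rw [one_div]

lemma sum_Rf_le (ht : WB t w S D) (τ : ℝ) {x : ℕ} (hx : 1 ≤ x) (y : ℕ) (ω : ℕ → UnitAddCircle) :
    ‖∑ p ∈ (Finset.Ico x y).filter Nat.Prime, Rf t w S τ p (ω p)‖ ≤ 4 * D / x := by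
  have hD := ht.nonneg
  refine (norm_sum_le _ _).trans ?_
  calc ∑ p ∈ (Finset.Ico x y).filter Nat.Prime, ‖Rf t w S τ p (ω p)‖
      ≤ ∑ p ∈ (Finset.Ico x y).filter Nat.Prime, 2 * D * (1 / (p : ℝ) ^ 2) := by
        refine Finset.sum_le_sum fun p _ => (norm_Rf ht τ p _).trans (le_of_eq ?_)
        ring
    _ ≤ 2 * D * (2 / x) := by
        rw [← Finset.mul_sum]
        exact mul_le_mul_of_nonneg_left (inv_sq_tail hx y) (by positivity)
    _ = _ := by ring

/-- Cauchy–Schwarz on a probability space. -/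
lemma int_le_sqrt {Ω : Type*} [MeasurableSpace Ω] (μ : Measure Ω) [IsProbabilityMeasure μ]
    {f : Ω → ℝ} (hf : Integrable f μ) (hf2 : Integrable (fun ω => f ω ^ 2) μ) {C : ℝ}
    (hC : ∫ ω, f ω ^ 2 ∂μ ≤ C) : ∫ ω, f ω ∂μ ≤ Real.sqrt C := by
  set m := ∫ ω, f ω ∂μ with hm
  have h1 : 0 ≤ ∫ ω, (f ω - m) ^ 2 ∂μ := integral_nonneg fun ω => sq_nonneg _
  have h2 : ∫ ω, (f ω - m) ^ 2 ∂μ = ∫ ω, f ω ^ 2 ∂μ - m ^ 2 := by
    have h3 : ∀ ω, (f ω - m) ^ 2 = f ω ^ 2 - 2 * m * f ω + m ^ 2 := fun ω => by ring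
    simp only [h3]
    have h4 : Integrable (fun ω => 2 * m * f ω) μ := hf.const_mul _
    have h5 : Integrable (fun ω => f ω ^ 2 - 2 * m * f ω) μ := hf2.sub h4
    rw [integral_add h5 (integrable_const _), integral_sub hf2 h4, integral_const_mul, ← hm,
      integral_const]
    simp only [probReal_univ, one_smul]
    ring
  refine Real.le_sqrt_of_sq_le ?_
  linarith

lemma int_le_sqrt' {A : ℝ} {f : ℝ → ℝ} (hf : Continuous f) {C : ℝ}
    (hC : ∫ t in A..A + 1, f t ^ 2 ≤ C) : ∫ t in A..A + 1, f t ≤ Real.sqrt C := by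
  have hle : A ≤ A + 1 := by linarith
  rw [intervalIntegral.integral_of_le hle] at hC ⊢
  have : IsProbabilityMeasure (volume.restrict (Set.Ioc A (A + 1))) := by
    constructor
    rw [Measure.restrict_apply_univ, Real.volume_Ioc, add_sub_cancel_left, ENNReal.ofReal_one]
  refine int_le_sqrt _ ?_ ?_ hC
  · exact (hf.intervalIntegrable A (A + 1)).1
  · exact ((hf.pow 2).intervalIntegrable A (A + 1)).1

/-- The error. -/
noncomputable def err (D : ℝ) (x : ℕ) : ℝ :=
  Real.sqrt (864 * CC ^ 2 * D ^ 2 / lg x) + Real.sqrt (2 * D ^ 2 / x) + 4 * D / x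

lemma rand_le (ht : WB t w S D) (τ : ℝ) {x y : ℕ} (hx : 1 ≤ x) (hxy : x ≤ y) :
    ∫ ω, ‖Vx t w S τ y ω - Vx t w S τ x ω‖ ∂PP ≤ err D x := by
  have hD := ht.nonneg
  set F := (Finset.Ico x y).filter Nat.Prime with hF
  set f : (ℕ → UnitAddCircle) → ℂ := fun ω => ∑ p ∈ F, cc t w S τ p * X (ω p) with hf
  have hfc : Continuous f := by
    rw [hf]
    refine continuous_finsetSum _ fun p _ => ?_
    exact continuous_const.mul (continuous_X.comp (continuous_apply p))
  have hfb : ∀ ω, ‖f ω‖ ≤ ∑ p ∈ F, ‖cc t w S τ p‖ := by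
    intro ω
    refine (norm_sum_le _ _).trans (Finset.sum_le_sum fun p _ => ?_)
    rw [norm_mul, norm_X, mul_one]
  have hfi : Integrable (fun ω => ‖f ω‖) PP :=
    Integrable.of_bound hfc.norm.aestronglyMeasurable _ (Eventually.of_forall fun ω => by
      rw [norm_norm]
      exact hfb ω)
  have hfi2 : Integrable (fun ω => ‖f ω‖ ^ 2) PP := by
    refine Integrable.of_bound (hfc.norm.pow 2).aestronglyMeasurable
      ((∑ p ∈ F, ‖cc t w S τ p‖) ^ 2) (Eventually.of_forall fun ω => ?_)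
    rw [norm_pow, norm_norm]
    exact pow_le_pow_left₀ (norm_nonneg _) (hfb ω) 2
  have h1 : ∫ ω, ‖f ω‖ ∂PP ≤ Real.sqrt (2 * D ^ 2 / x) := by
    refine int_le_sqrt PP hfi hfi2 ?_
    rw [hf]
    rw [mean_sq]
    calc ∑ p ∈ F, ‖cc t w S τ p‖ ^ 2 ≤ ∑ p ∈ F, D ^ 2 * (1 / (p : ℝ) ^ 2) := by
          refine Finset.sum_le_sum fun p _ => ?_
          calc ‖cc t w S τ p‖ ^ 2 ≤ (D / p) ^ 2 :=
                pow_le_pow_left₀ (norm_nonneg _) (norm_cc ht τ p) 2
            _ = _ := by ring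
      _ ≤ D ^ 2 * (2 / x) := by
          rw [← Finset.mul_sum]
          exact mul_le_mul_of_nonneg_left (inv_sq_tail hx y) (by positivity)
      _ = _ := by ring
  calc ∫ ω, ‖Vx t w S τ y ω - Vx t w S τ x ω‖ ∂PP
      ≤ ∫ ω, (‖f ω‖ + 4 * D / x) ∂PP := by
        refine integral_mono ?_ (hfi.add (integrable_const _)) fun ω => ?_
        · refine Integrable.of_bound ((Vx_cyl ht τ y).sub (Vx_cyl ht τ x)).norm.aestronglyMeasurable
            (∑ p ∈ F, ‖cc t w S τ p‖ + 4 * D / x) (Eventually.of_forall fun ω => ?_)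
          rw [norm_norm, Vx_sub τ hxy]
          exact (norm_add_le _ _).trans (add_le_add (hfb ω) (sum_Rf_le ht τ hx y ω))
        · rw [Vx_sub τ hxy]
          exact (norm_add_le _ _).trans (add_le_add le_rfl (sum_Rf_le ht τ hx y ω))
    _ = (∫ ω, ‖f ω‖ ∂PP) + 4 * D / x := by
        rw [integral_add hfi (integrable_const _), integral_const]
        simp
    _ ≤ err D x := by
        unfold err
        have h2 : 0 ≤ Real.sqrt (864 * CC ^ 2 * D ^ 2 / lg x) := Real.sqrt_nonneg _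
        linarith

lemma wind_le (ht : WB t w S D) (τ : ℝ) {x y : ℕ} (hx : 3 ≤ x) (hxy : x ≤ y) (A : ℝ) :
    ∫ r in A..A + 1, ‖Vx t w S τ y (flow r) - Vx t w S τ x (flow r)‖ ≤ err D x := by
  have hD := ht.nonneg
  set F := (Finset.Ico x y).filter Nat.Prime with hF
  set f : ℝ → ℂ := fun r => ∑ p ∈ F, cc t w S τ p * Complex.exp (-(r * Real.log p : ℝ) * Complex.I)
    with hf
  have hfc : Continuous f := by
    rw [hf]
    fun_prop
  have hlg : 1 ≤ lg x := by
    unfold lg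
    refine Nat.le_floor ?_
    rw [Nat.cast_one, Real.le_log_iff_exp_le (by positivity)]
    have h1 := Real.exp_one_lt_d9
    have h2 : (3 : ℝ) ≤ x := by exact_mod_cast hx
    linarith
  have h1 : ∫ r in A..A + 1, ‖f r‖ ≤ Real.sqrt (864 * CC ^ 2 * D ^ 2 / lg x) := by
    refine int_le_sqrt' hfc.norm ?_
    refine tail_fin hlg (fun p hp => ?_) _ D hD (fun p _ => norm_cc ht τ p) A
    obtain ⟨hp1, hp2⟩ := Finset.mem_filter.1 hp
    refine ⟨hp2, ?_⟩
    unfold lg
    refine Nat.floor_mono (Real.log_le_log (by positivity) ?_)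
    exact_mod_cast (Finset.mem_Ico.1 hp1).1
  have hVc : Continuous fun r => ‖Vx t w S τ y (flow r) - Vx t w S τ x (flow r)‖ := by
    have h2 : Continuous fun r : ℝ => flow r := continuous_pi fun n => continuous_flow n
    exact (((Vx_cyl ht τ y).comp h2).sub ((Vx_cyl ht τ x).comp h2)).norm
  calc ∫ r in A..A + 1, ‖Vx t w S τ y (flow r) - Vx t w S τ x (flow r)‖
      ≤ ∫ r in A..A + 1, (‖f r‖ + 4 * D / x) := by
        refine intervalIntegral.integral_mono_on (by linarith) (hVc.intervalIntegrable _ _)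
          ((hfc.norm.add continuous_const).intervalIntegrable _ _) fun r _ => ?_
        rw [Vx_sub τ hxy]
        refine (norm_add_le _ _).trans (add_le_add (le_of_eq ?_) (sum_Rf_le ht τ (by omega) y _))
        rw [hf]
        simp only [X_flow]
        rw [hF]
    _ = (∫ r in A..A + 1, ‖f r‖) + 4 * D / x := by
        rw [intervalIntegral.integral_add (hfc.norm.intervalIntegrable _ _)
          (continuous_const.intervalIntegrable _ _), intervalIntegral.integral_const]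
        simp
    _ ≤ err D x := by
        unfold err
        have h2 : 0 ≤ Real.sqrt (2 * D ^ 2 / x) := Real.sqrt_nonneg _
        linarith

lemma err_tendsto (D : ℝ) : Tendsto (err D) atTop (𝓝 0) := by
  have h0 : Tendsto (fun x : ℕ => (x : ℝ)) atTop atTop := tendsto_natCast_atTop_atTop
  have h1 : Tendsto (fun x : ℕ => (lg x : ℝ)) atTop atTop := by
    refine tendsto_atTop_mono (fun x => (show Real.log x - 1 ≤ (lg x : ℝ) by
      have := lt_lg x
      linarith)) ?_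
    exact tendsto_atTop_add_const_right _ _ (Real.tendsto_log_atTop.comp h0)
  have h2 : Tendsto (fun x : ℕ => Real.sqrt (864 * CC ^ 2 * D ^ 2 / lg x)) atTop (𝓝 0) := by
    have := (Real.continuous_sqrt.tendsto 0).comp (h1.const_div_atTop (864 * CC ^ 2 * D ^ 2))
    rw [Real.sqrt_zero] at this
    exact this
  have h3 : Tendsto (fun x : ℕ => Real.sqrt (2 * D ^ 2 / x)) atTop (𝓝 0) := by
    have := (Real.continuous_sqrt.tendsto 0).comp (h0.const_div_atTop (2 * D ^ 2))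
    rw [Real.sqrt_zero] at this
    exact this
  have h4 : Tendsto (fun x : ℕ => 4 * D / (x : ℝ)) atTop (𝓝 0) := h0.const_div_atTop _
  have h5 := (h2.add h3).add h4
  rw [add_zero, add_zero] at h5
  exact h5

end

end Pool.Agent.T6.H4.AP
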