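import Pool.Agent.T6.H4.AP.Mot

/-!
# The theorem for motives
-/

set_option autoImplicit false
set_option linter.unusedSectionVars false

namespace Pool.Agent.T6.H4.AP

open MeasureTheory Filter Topology Polynomial
open Pool.Agent.W350.Edge
open Pool.Agent.Y149.TL (Motive IsEuler edge)
open Pool.Agent.Y149.CM (LFun)
open scoped ENNReal NNReal

theorem final (ι : Type) [Fintype ι] (H : ι → Motive) (B : ι → Nat.Primes → ℂ[X])
    (hB : ∀ j, IsEuler (H j).weight (H j).frob (B j)) (τ : ι → ℝ) :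
    ∃ (E : Set ℝ) (ℓ : ι → ℝ → ℂ) (ν : ProbabilityMeasure (ι → ℂ)), dimH E = 0 ∧
      (∀ r, r ∉ E → ∀ j, ℓ j r ≠ 0 ∧
        Tendsto (fun x => partialProduct (B j) x (edge (H j).weight (τ j + r))) atTop
          (𝓝 (ℓ j r)) ∧
        ∀ K : ℝ, Tendsto (LFun (B j)) (𝓝[angle (H j).weight (τ j + r) K]
          (edge (H j).weight (τ j + r))) (𝓝 (ℓ j r))) ∧
      (∀ ε : ℝ, 0 < ε → ∃ R : ℝ, 0 < R ∧ ∀ a : ℝ, ∃ s ∈ Set.Icc a (a + R), ∀ (j : ι) (A : ℝ),
        ∫⁻ r in Set.Ioc A (A + 1), ‖Complex.log (ℓ j (r + s) / ℓ j r)‖ₑ ≤ ENNReal.ofReal ε) ∧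
      (∀ f : BoundedContinuousFunction (ι → ℂ) ℝ,
        Tendsto (fun x : ℕ => ∫ ω, f (fun j => randomProduct (H j).weight (B j) (τ j) x ω) ∂PP)
          atTop (𝓝 (∫ y, f y ∂(ν : Measure (ι → ℂ)))) ∧
        Tendsto (wm fun r => f (fun j => ℓ j r)) windows
          (𝓝 (∫ y, f y ∂(ν : Measure (ι → ℂ))))) ∧
      ∀ j, (H j).rank ≠ 0 → ∃ c : ℝ, 0 < c ∧ ∃ Λ : ℝ, ∀ lam : ℝ, Λ ≤ lam →
        (ν : Measure (ι → ℂ)).real {z | lam ≤ ‖z j‖ ∨ ‖z j‖ ≤ 1 / lam} ≤
          2 * Real.exp (-Real.exp (c * lam ^ (1 / ((H j).rank : ℝ)))) := by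
  classical
  have ht : ∀ j, WB (tr (H j)) ((H j).weight : ℝ) (SS (H j) (B j)) ((H j).rank : ℝ) :=
    fun j => wb (hB j)
  have hne := fun j => BN_ne (hB j)
  have hF : ∀ j, IsFac (tr (H j)) (BN (B j)) ((H j).weight : ℝ) (SS (H j) (B j)) (τ j)
      (FN (H j) (B j) (τ j)) := fun j => isFac (hB j) (τ j)
  obtain ⟨ν, hν⟩ := limit_law (t := fun j => tr (H j)) (B := fun j => BN (B j))
    (w := fun j => ((H j).weight : ℝ)) (S := fun j => SS (H j) (B j))
    (D := fun j => ((H j).rank : ℝ)) ht hne τ hF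
  refine ⟨EE (fun j => tr (H j)) (fun j => ((H j).weight : ℝ)) (fun j => SS (H j) (B j)) τ,
    ell (fun j => tr (H j)) (fun j => BN (B j)) (fun j => ((H j).weight : ℝ))
      (fun j => SS (H j) (B j)) τ, ν, dimH_EE ht τ, fun r hr j => ⟨ell_ne hne τ j r, ?_, ?_⟩,
      fun ε hε => almost_periodic ht hne τ hε, fun f => ⟨?_, (hν f).2⟩, fun j hj => ?_⟩
  · have h1 := part_tendsto (t := fun j => tr (H j)) (B := fun j => BN (B j)) ht τ hF hr j
    refine h1.congr fun x => ?_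
    exact (partialProduct_eq (H j) (B j) (τ j) r x).symm
  · intro K
    have hr' : r ∉ DV (tr (H j)) ((H j).weight : ℝ) (SS (H j) (B j)) (τ j) :=
      fun h => hr (Set.mem_iUnion.2 ⟨j, h⟩)
    obtain ⟨A, hA⟩ := conv_of_not_mem hr'
    obtain ⟨l, -, hl1, hl2⟩ := at_point (wb (hB j)) (BN (B j)) (τ j + r)
      (fun p hp hpp => BN_ne (hB j) p hp hpp _) A hA
    have h1 := part_tendsto (t := fun j => tr (H j)) (B := fun j => BN (B j)) ht τ hF hr j
    have h2 : l = ell (fun j => tr (H j)) (fun j => BN (B j)) (fun j => ((H j).weight : ℝ))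
        (fun j => SS (H j) (B j)) τ j r := by
      refine tendsto_nhds_unique hl1 (h1.congr fun x => ?_)
      have h3 := partialProduct_eq (H j) (B j) (τ j) r x
      rw [← h3]
      unfold partialProduct
      rw [← prod_primes x fun p => fac (tr (H j)) (SS (H j) (B j)) (BN (B j))
        (sp ((H j).weight : ℝ) (τ j + r)) p]
      refine Finset.prod_congr rfl fun p _ => ?_
      rw [fac_motive (hB j) p (by rw [sp_re]), sp_edge]
    rw [← h2]
    have h3 := hl2 K
    rw [sp_edge] at h3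
    refine h3.congr' ?_
    filter_upwards [self_mem_nhdsWithin] with s hs
    exact (LFun_eq (hB j) hs.1.le).symm
  · refine (hν f).1.congr fun x => ?_
    congr 1
    funext ω
    congr 1
    funext j
    exact (randomProduct_eq (H j) (B j) (τ j) x ω).symm
  · have hD : (0 : ℝ) < (H j).rank := by exact_mod_cast Nat.pos_of_ne_zero hj
    obtain ⟨c, hc, Λ, hΛ, h1⟩ := tails (wb (hB j)) hD (hne j) (τ j) (hF j)
    refine ⟨c, hc, Λ, fun lam hlam => ?_⟩
    have hm : Measurable fun z : ι → ℂ => z j := measurable_pi_apply j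
    have hp : IsProbabilityMeasure ((ν : Measure (ι → ℂ)).map fun z => z j) :=
      Measure.isProbabilityMeasure_map hm.aemeasurable
    obtain ⟨h2, h3⟩ := h1 ((ν : Measure (ι → ℂ)).map fun z => z j) (fun f => by
      have h4 := (hν (f.compContinuous ⟨fun z : ι → ℂ => z j, continuous_apply j⟩)).1
      rw [integral_map hm.aemeasurable f.continuous.aestronglyMeasurable]
      exact h4) lam hlam
    have h5 : MeasurableSet {z : ℂ | lam ≤ ‖z‖} :=
      (isClosed_le continuous_const continuous_norm).measurableSet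
    have h6 : MeasurableSet {z : ℂ | ‖z‖ ≤ 1 / lam} :=
      (isClosed_le continuous_norm continuous_const).measurableSet
    rw [map_measureReal_apply hm h5] at h2
    rw [map_measureReal_apply hm h6] at h3
    have h7 : {z : ι → ℂ | lam ≤ ‖z j‖ ∨ ‖z j‖ ≤ 1 / lam} =
        ((fun z : ι → ℂ => z j) ⁻¹' {z : ℂ | lam ≤ ‖z‖}) ∪
        ((fun z : ι → ℂ => z j) ⁻¹' {z : ℂ | ‖z‖ ≤ 1 / lam}) := rfl
    rw [h7]
    refine (measureReal_union_le _ _).trans ?_
    linarith

end Pool.Agent.T6.H4.AP
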