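import Pool.Agent.T6.H4.AP.Asm

/-!
# The joint theorem for systems with a weight bound
-/

set_option autoImplicit false
set_option linter.unusedSectionVars false

namespace Pool.Agent.T6.H4.AP

open MeasureTheory Filter Topology AddCircle UnitAddTorus Polynomial
open Pool.Agent.W350.Edge
open scoped ComplexConjugate ENNReal NNReal

section Single

variable {t : ℕ → ℕ → ℂ} {S : Finset ℕ} {D w : ℝ}

/-- The limit of the partial sums on the line. -/
noncomputable def VL (t : ℕ → ℕ → ℂ) (w : ℝ) (S : Finset ℕ) (τ r : ℝ) : ℂ :=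
  limUnder atTop fun x => Vx t w S τ x (flow r)

/-- The set of divergence. -/
def DV (t : ℕ → ℕ → ℂ) (w : ℝ) (S : Finset ℕ) (τ : ℝ) : Set ℝ := divSet (tw (aa t w S) τ)

lemma dimH_DV (ht : WB t w S D) (τ : ℝ) : dimH (DV t w S τ) = 0 :=
  dimH_divSet _ D fun p => by
    rw [norm_tw]
    exact norm_aa ht p

lemma conv_of_not_mem {τ r : ℝ} (hr : r ∉ DV t w S τ) :
    ∃ A, Tendsto (ps (aa t w S) (τ + r)) atTop (𝓝 A) := by
  have h1 : ∃ A, Tendsto (ps (tw (aa t w S) τ) r) atTop (𝓝 A) := by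
    by_contra h
    exact hr h
  obtain ⟨A, hA⟩ := h1
  refine ⟨A, ?_⟩
  rw [ps_tw, add_comm r τ] at hA
  exact hA

lemma VL_tendsto (ht : WB t w S D) {τ r : ℝ} (hr : r ∉ DV t w S τ) :
    Tendsto (fun x => Vx t w S τ x (flow r)) atTop (𝓝 (VL t w S τ r)) := by
  refine tendsto_nhds_limUnder ?_
  obtain ⟨A, hA⟩ := conv_of_not_mem hr
  have h1 : Summable fun p : ℕ => RR t S p (sp w (τ + r)) :=
    Summable.of_norm_bounded (RR_summable_bound D) fun p => RR_bound ht p (by rw [sp_re])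
  refine ⟨_, (hA.add h1.hasSum.tendsto_sum_nat).congr fun x => ?_⟩
  exact (Vx_flow τ r x).symm

lemma null_of_dimH {E : Set ℝ} (h : dimH E = 0) : volume E = 0 := by
  have h1 : (Measure.hausdorffMeasure ((1 : ℝ≥0) : ℝ) : Measure ℝ) E = 0 :=
    hausdorffMeasure_of_dimH_lt (s := E) (d := 1) (by rw [h]; norm_num)
  rwa [NNReal.coe_one, hausdorffMeasure_real] at h1

lemma ae_not_mem {E : Set ℝ} (h : dimH E = 0) : ∀ᵐ r : ℝ, r ∉ E := by
  rw [ae_iff]
  simp only [not_not]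
  exact null_of_dimH h

end Single

section Joint

variable {ι : Type} [Fintype ι] {t : ι → ℕ → ℕ → ℂ} {S : ι → Finset ℕ} {D w : ι → ℝ}

/-- The joint partial sums. -/
noncomputable def JU (t : ι → ℕ → ℕ → ℂ) (w : ι → ℝ) (S : ι → Finset ℕ) (τ : ι → ℝ) (x : ℕ)
    (ω : ℕ → UnitAddCircle) : ι → ℂ := fun j => Vx (t j) (w j) (S j) (τ j) (x + 3) ω

/-- The joint limits. -/
noncomputable def Ju (t : ι → ℕ → ℕ → ℂ) (w : ι → ℝ) (S : ι → Finset ℕ) (τ : ι → ℝ) (r : ℝ) :
    ι → ℂ := fun j => VL (t j) (w j) (S j) (τ j) r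

/-- The joint error. -/
noncomputable def Jη (D : ι → ℝ) (x : ℕ) : ℝ := ∑ j, err (D j) (x + 3)

lemma norm_le_sum (v : ι → ℂ) : ‖v‖ ≤ ∑ j, ‖v j‖ := by
  rw [pi_norm_le_iff_of_nonneg (Finset.sum_nonneg fun j _ => norm_nonneg _)]
  intro j
  exact Finset.single_le_sum (f := fun j => ‖v j‖) (fun j _ => norm_nonneg _) (Finset.mem_univ j)

lemma joint_approx (ht : ∀ j, WB (t j) (w j) (S j) (D j)) (τ : ι → ℝ) :
    Approx (JU t w S τ) (Jη D) (Ju t w S τ) where
  cyl x := Cyl.pi fun j => Vx_isCyl (ht j) (τ j) (x + 3)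
  tend := by
    unfold Jη
    have h1 : Tendsto (fun x : ℕ => ∑ j, err (D j) (x + 3)) atTop (𝓝 (∑ _j : ι, (0 : ℝ))) :=
      tendsto_finsetSum _ fun j _ => (err_tendsto (D j)).comp (tendsto_add_atTop_nat 3)
    simpa using h1
  rand x y hxy := by
    have hi : ∀ j, Integrable (fun ω => ‖Vx (t j) (w j) (S j) (τ j) (y + 3) ω -
        Vx (t j) (w j) (S j) (τ j) (x + 3) ω‖) PP := fun j =>
      ((Vx_isCyl (ht j) (τ j) (y + 3)).integrable.sub (Vx_isCyl (ht j) (τ j) (x + 3)).integrable).norm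
    have hJ : ∀ x, Cyl (JU t w S τ x) := fun x => Cyl.pi fun j => Vx_isCyl (ht j) (τ j) (x + 3)
    calc ∫ ω, ‖JU t w S τ y ω - JU t w S τ x ω‖ ∂PP
        ≤ ∫ ω, ∑ j, ‖Vx (t j) (w j) (S j) (τ j) (y + 3) ω -
            Vx (t j) (w j) (S j) (τ j) (x + 3) ω‖ ∂PP := by
          refine integral_mono (((hJ y).integrable.sub (hJ x).integrable).norm)
            (integrable_finsetSum _ fun j _ => hi j) fun ω => ?_
          exact norm_le_sum _
      _ = ∑ j, ∫ ω, ‖Vx (t j) (w j) (S j) (τ j) (y + 3) ω -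
            Vx (t j) (w j) (S j) (τ j) (x + 3) ω‖ ∂PP := integral_finsetSum _ fun j _ => hi j
      _ ≤ Jη D x := Finset.sum_le_sum fun j _ => rand_le (ht j) (τ j) (by omega) (by omega)
  wind x y hxy A := by
    have hc : ∀ j (x : ℕ), Continuous fun r : ℝ => Vx (t j) (w j) (S j) (τ j) x (flow r) :=
      fun j x => (Vx_isCyl (ht j) (τ j) x).continuous_flow
    have hi : ∀ j, IntervalIntegrable (fun r => ‖Vx (t j) (w j) (S j) (τ j) (y + 3) (flow r) -
        Vx (t j) (w j) (S j) (τ j) (x + 3) (flow r)‖) volume A (A + 1) := fun j =>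
      (((hc j (y + 3)).sub (hc j (x + 3))).norm).intervalIntegrable _ _
    have hJ : ∀ x, Continuous fun r => JU t w S τ x (flow r) := fun x =>
      (Cyl.pi fun j => Vx_isCyl (ht j) (τ j) (x + 3) : Cyl (JU t w S τ x)).continuous_flow
    calc ∫ r in A..A + 1, ‖JU t w S τ y (flow r) - JU t w S τ x (flow r)‖
        ≤ ∫ r in A..A + 1, ∑ j, ‖Vx (t j) (w j) (S j) (τ j) (y + 3) (flow r) -
            Vx (t j) (w j) (S j) (τ j) (x + 3) (flow r)‖ := by
          refine intervalIntegral.integral_mono_on (by linarith)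
            ((((hJ y).sub (hJ x)).norm).intervalIntegrable _ _) ?_ fun r _ => norm_le_sum _
          exact (continuous_finsetSum _ fun j _ =>
            ((hc j (y + 3)).sub (hc j (x + 3))).norm).intervalIntegrable _ _
      _ = ∑ j, ∫ r in A..A + 1, ‖Vx (t j) (w j) (S j) (τ j) (y + 3) (flow r) -
            Vx (t j) (w j) (S j) (τ j) (x + 3) (flow r)‖ :=
          intervalIntegral.integral_finsetSum fun j _ => hi j
      _ ≤ Jη D x := Finset.sum_le_sum fun j _ => wind_le (ht j) (τ j) (by omega) (by omega) A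
  lim := by
    have h1 : ∀ j, ∀ᵐ r : ℝ, r ∉ DV (t j) (w j) (S j) (τ j) := fun j =>
      ae_not_mem (dimH_DV (ht j) (τ j))
    filter_upwards [ae_all_iff.2 h1] with r hr
    refine tendsto_pi_nhds.2 fun j => ?_
    exact (VL_tendsto (ht j) (hr j)).comp (tendsto_add_atTop_nat 3)

end Joint

/-- The principal logarithm is the smallest one. -/
lemma norm_log_exp_le (z : ℂ) : ‖Complex.log (Complex.exp z)‖ ≤ ‖z‖ := by
  have h1 : (Complex.log (Complex.exp z)).re = z.re := by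
    rw [Complex.log_re, Complex.norm_exp, Real.log_exp]
  have h2 : |(Complex.log (Complex.exp z)).im| ≤ |z.im| := by
    have h3 := Complex.neg_pi_lt_log_im (Complex.exp z)
    have h4 := Complex.log_im_le_pi (Complex.exp z)
    by_cases h : |z.im| < Real.pi
    · have h5 := abs_lt.1 h
      rw [Complex.log_exp h5.1 h5.2.le]
    · push Not at h
      exact (abs_le.2 ⟨h3.le, h4⟩).trans h
  rw [Complex.norm_eq_sqrt_sq_add_sq, Complex.norm_eq_sqrt_sq_add_sq, h1]
  refine Real.sqrt_le_sqrt ?_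
  have := sq_le_sq.2 h2
  linarith

lemma norm_log_mul_exp {z : ℂ} (hz : z ≠ 0) (v : ℂ) :
    ‖Complex.log (z * Complex.exp v)‖ ≤ ‖Complex.log z‖ + ‖v‖ := by
  have h1 : z * Complex.exp v = Complex.exp (Complex.log z + v) := by
    rw [Complex.exp_add, Complex.exp_log hz]
  rw [h1]
  exact (norm_log_exp_le _).trans (norm_add_le _ _)

/-- A continuous function without zeros on the torus. -/
lemma log_ratio {b : (ℕ → UnitAddCircle) → ℂ} (hb : Cyl b) (h0 : ∀ ω, b ω ≠ 0) {ε : ℝ}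
    (hε : 0 < ε) : ∃ S : Finset ℕ, (∀ p ∈ S, p.Prime) ∧ ∃ δ : ℝ, 0 < δ ∧ ∀ s : ℝ,
      (∀ p ∈ S, ‖flow s p‖ < δ) → ∀ r : ℝ, ‖Complex.log (b (flow (r + s)) / b (flow r))‖ ≤ ε := by
  obtain ⟨c, hc, hcb⟩ : ∃ c : ℝ, 0 < c ∧ ∀ ω, c ≤ ‖b ω‖ := by
    obtain ⟨ω₀, _, hω₀⟩ := isCompact_univ.exists_isMinOn ⟨0, Set.mem_univ _⟩
      hb.continuous.norm.continuousOn
    exact ⟨‖b ω₀‖, norm_pos_iff.2 (h0 ω₀), fun ω => hω₀ (Set.mem_univ ω)⟩
  obtain ⟨S, hS, Ψ, hΨ, hU⟩ := id hb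
  set ε' : ℝ := min (c / 2) (c * ε / 2) with hε'
  have hε'0 : 0 < ε' := lt_min (by positivity) (by positivity)
  obtain ⟨δ, hδ, hΨ'⟩ := Metric.uniformContinuous_iff.1
    (CompactSpace.uniformContinuous_of_continuous hΨ) ε' hε'0
  refine ⟨S, hS, δ, hδ, fun s hs r => ?_⟩
  have h1 : ‖b (flow (r + s)) - b (flow r)‖ ≤ ε' := by
    rw [hU, hU, ← dist_eq_norm]
    refine (hΨ' ?_).le
    rw [dist_pi_lt_iff hδ]
    rintro ⟨p, hp⟩
    show dist (flow (r + s) p) (flow r p) < δ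
    rw [dist_eq_norm, flow_add', add_sub_cancel_left]
    exact hs p hp
  set z := (b (flow (r + s)) - b (flow r)) / b (flow r) with hz
  have h2 : b (flow (r + s)) / b (flow r) = 1 + z := by
    rw [hz, sub_div, div_self (h0 _)]
    ring
  have h3 : ‖z‖ ≤ ε' / c := by
    rw [hz, norm_div]
    exact div_le_div₀ hε'0.le h1 hc (hcb _)
  have h4 : ‖z‖ ≤ 1 / 2 := by
    refine h3.trans ?_
    rw [div_le_iff₀ hc]
    exact (min_le_left _ _).trans (by linarith)
  have h5 : ‖z‖ ≤ ε / 2 := by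
    refine h3.trans ?_
    rw [div_le_iff₀ hc]
    exact (min_le_right _ _).trans (by linarith)
  rw [h2]
  have h6 := Complex.norm_log_one_add_half_le_self h4
  linarith [norm_nonneg z]

end Pool.Agent.T6.H4.AP
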