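import Mathlib

/-!
# Uniform distribution of `(p^{-it})_p` on the torus, uniformly in all windows
-/

set_option autoImplicit false

namespace Pool.Agent.T6.H4.AP

open MeasureTheory Filter Topology AddCircle UnitAddTorus
open scoped ComplexConjugate

/-- The probability measure on `ℝ/ℤ`. -/
noncomputable abbrev haar : Measure UnitAddCircle := AddCircle.haarAddCircle

/-- The mean value of `f` over the window `[A, A + T]`, `z = (A, T)`. -/
noncomputable def wm {E : Type*} [NormedAddCommGroup E] [NormedSpace ℝ E] (f : ℝ → E)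
    (z : ℝ × ℝ) : E :=
  z.2⁻¹ • ∫ t in z.1..z.1 + z.2, f t

/-- Windows `[A, A + T]` with arbitrary `A` and `T → ∞`. -/
def windows : Filter (ℝ × ℝ) := ⊤ ×ˢ atTop

instance : (windows).IsCountablyGenerated := by
  unfold windows
  infer_instance

instance : (windows).NeBot := by
  unfold windows
  infer_instance

lemma windows_ev {P : ℝ → Prop} (h : ∀ᶠ T in atTop, P T) : ∀ᶠ z : ℝ × ℝ in windows, P z.2 :=
  tendsto_snd.eventually h

lemma windows_pos : ∀ᶠ z : ℝ × ℝ in windows, 0 < z.2 := windows_ev (eventually_gt_atTop 0)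

lemma wm_norm_le {E : Type*} [NormedAddCommGroup E] [NormedSpace ℝ E] {f : ℝ → E} {C : ℝ}
    (h : ∀ t, ‖f t‖ ≤ C) {z : ℝ × ℝ} (hz : 0 < z.2) : ‖wm f z‖ ≤ C := by
  unfold wm
  have h1 := intervalIntegral.norm_integral_le_of_norm_le_const (a := z.1) (b := z.1 + z.2)
    (f := f) (C := C) (fun x _ => h x)
  rw [norm_smul, norm_inv, Real.norm_of_nonneg hz.le]
  have h2 : |z.1 + z.2 - z.1| = z.2 := by
    rw [add_sub_cancel_left, abs_of_pos hz]
  rw [h2] at h1
  calc z.2⁻¹ * ‖∫ t in z.1..z.1 + z.2, f t‖ ≤ z.2⁻¹ * (C * z.2) := by gcongr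
    _ = C := by field_simp

lemma wm_sub {E : Type*} [NormedAddCommGroup E] [NormedSpace ℝ E] {f g : ℝ → E} {z : ℝ × ℝ}
    (hf : IntervalIntegrable f volume z.1 (z.1 + z.2))
    (hg : IntervalIntegrable g volume z.1 (z.1 + z.2)) :
    wm (fun t => f t - g t) z = wm f z - wm g z := by
  unfold wm
  rw [intervalIntegral.integral_sub hf hg, smul_sub]

lemma wm_const {E : Type*} [NormedAddCommGroup E] [NormedSpace ℝ E] [CompleteSpace E] (c : E)
    {z : ℝ × ℝ}
    (hz : 0 < z.2) : wm (fun _ => c) z = c := by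
  unfold wm
  rw [intervalIntegral.integral_const, add_sub_cancel_left, smul_smul, inv_mul_cancel₀ hz.ne',
    one_smul]

/-- Exponentials have mean value zero, uniformly in all windows. -/
lemma exp_window {lam : ℝ} (h : lam ≠ 0) :
    Tendsto (wm fun t : ℝ => Complex.exp ((lam * t : ℝ) * Complex.I)) windows (𝓝 0) := by
  have hb : ∀ᶠ z : ℝ × ℝ in windows,
      ‖wm (fun t : ℝ => Complex.exp ((lam * t : ℝ) * Complex.I)) z‖ ≤ 2 / |lam| * z.2⁻¹ := by
    filter_upwards [windows_pos] with z hz
    have hc : (lam : ℂ) * Complex.I ≠ 0 :=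
      mul_ne_zero (by exact_mod_cast h) Complex.I_ne_zero
    have h1 : ∫ t in z.1..z.1 + z.2, Complex.exp ((lam * t : ℝ) * Complex.I) =
        (Complex.exp ((lam : ℂ) * Complex.I * ((z.1 + z.2 : ℝ) : ℂ)) -
          Complex.exp ((lam : ℂ) * Complex.I * (z.1 : ℂ))) / ((lam : ℂ) * Complex.I) := by
      rw [← integral_exp_mul_complex hc]
      congr 1
      funext t
      congr 1
      push_cast
      ring
    unfold wm
    rw [h1, norm_smul, norm_div, norm_mul, Complex.norm_I, mul_one, Complex.norm_real, norm_inv,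
      Real.norm_of_nonneg hz.le, Real.norm_eq_abs, mul_comm]
    have hn : ∀ x : ℝ, ‖Complex.exp ((lam : ℂ) * Complex.I * (x : ℂ))‖ = 1 := by
      intro x
      rw [show (lam : ℂ) * Complex.I * (x : ℂ) = ((lam * x : ℝ) : ℂ) * Complex.I by
        push_cast; ring]
      exact Complex.norm_exp_ofReal_mul_I _
    refine mul_le_mul_of_nonneg_right ?_ (inv_nonneg.2 hz.le)
    refine div_le_div_of_nonneg_right ?_ (abs_nonneg _)
    refine (norm_sub_le _ _).trans ?_
    rw [hn, hn]
    norm_num
  refine squeeze_zero_norm' hb ?_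
  have h2 : Tendsto (fun T : ℝ => 2 / |lam| * T⁻¹) atTop (𝓝 0) := by
    simpa using tendsto_inv_atTop_zero.const_mul (2 / |lam|)
  exact h2.comp tendsto_snd

/-- The logarithms of the primes are linearly independent over `ℤ`. -/
lemma log_ne_zero {S : Finset ℕ} (hS : ∀ p ∈ S, p.Prime) {c : S → ℤ} (hc : c ≠ 0) :
    ∑ i : S, (c i : ℝ) * Real.log (i : ℕ) ≠ 0 := by
  classical
  intro h1
  apply hc
  funext j
  have h3 : ∑ i : S, (((c i).toNat : ℕ) : ℝ) * Real.log (i : ℕ) =
      ∑ i : S, (((-c i).toNat : ℕ) : ℝ) * Real.log (i : ℕ) := by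
    rw [← sub_eq_zero, ← Finset.sum_sub_distrib, ← h1]
    apply Finset.sum_congr rfl
    intro i _
    rw [← sub_mul]
    congr 1
    have : ((c i).toNat : ℤ) - ((-c i).toNat : ℤ) = c i := by omega
    exact_mod_cast this
  have hpos : ∀ i : S, (0 : ℝ) < (i : ℕ) := fun i => by exact_mod_cast (hS i i.2).pos
  have h4 : ∀ e : S → ℕ, ∑ i : S, (e i : ℝ) * Real.log (i : ℕ) =
      Real.log ((∏ i : S, (i : ℕ) ^ e i : ℕ) : ℝ) := by
    intro e
    push_cast
    rw [Real.log_prod (fun i _ => (pow_pos (hpos i) _).ne')]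
    apply Finset.sum_congr rfl
    intro i _
    rw [Real.log_pow]
  rw [h4, h4] at h3
  have hpp : ∀ e : S → ℕ, 0 < ∏ i : S, (i : ℕ) ^ e i := fun e =>
    Finset.prod_pos (fun i _ => pow_pos (hS i i.2).pos _)
  have h5 : ∏ i : S, (i : ℕ) ^ (c i).toNat = ∏ i : S, (i : ℕ) ^ (-c i).toNat := by
    have := Real.log_injOn_pos (Set.mem_Ioi.2 (by exact_mod_cast hpp _))
      (Set.mem_Ioi.2 (by exact_mod_cast hpp _)) h3
    exact_mod_cast this
  have h6 : ∀ e : S → ℕ, (∏ i : S, (i : ℕ) ^ e i).factorization (j : ℕ) = e j := by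
    intro e
    rw [Nat.factorization_prod (fun (i : S) _ => (pow_pos (hS i i.2).pos _).ne')]
    rw [Finsupp.finsetSum_apply, Finset.sum_eq_single j]
    · rw [(hS j j.2).factorization_pow]; simp
    · intro i _ hij
      rw [(hS i i.2).factorization_pow, Finsupp.single_apply, if_neg]
      exact fun h => hij (Subtype.ext h)
    · intro h; exact absurd (Finset.mem_univ _) h
  have h7 := congrArg (fun n => n.factorization (j : ℕ)) h5
  simp only [h6] at h7
  simp only [Pi.zero_apply]
  omega

/-- The flow `t ↦ (p^{-it})_p`, in terms of angles. -/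
noncomputable def flow (t : ℝ) (n : ℕ) : UnitAddCircle :=
  ((-(t * Real.log n) / (2 * Real.pi) : ℝ) : UnitAddCircle)

lemma continuous_flow (n : ℕ) : Continuous fun t => flow t n := by
  unfold flow
  exact (AddCircle.continuous_mk' (1 : ℝ)).comp (by fun_prop)

lemma fourier_flow (k : ℤ) (t : ℝ) (n : ℕ) :
    fourier k (flow t n) = Complex.exp (-(k * t * Real.log n : ℝ) * Complex.I) := by
  unfold flow
  rw [fourier_coe_apply]
  congr 1
  push_cast
  have : (Real.pi : ℂ) ≠ 0 := by exact_mod_cast Real.pi_ne_zero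
  field_simp

/-- The coordinates as complex numbers of absolute value one. -/
noncomputable def X (x : UnitAddCircle) : ℂ := (AddCircle.toCircle x : ℂ)

lemma X_eq (x : UnitAddCircle) : X x = fourier 1 x := by
  unfold X
  rw [fourier_one]

lemma norm_X (x : UnitAddCircle) : ‖X x‖ = 1 := by
  unfold X
  exact Circle.norm_coe _

lemma continuous_X : Continuous X := by
  unfold X
  exact continuous_subtype_val.comp (AddCircle.continuous_toCircle)

lemma X_flow (t : ℝ) (n : ℕ) : X (flow t n) = Complex.exp (-(t * Real.log n : ℝ) * Complex.I) := by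
  rw [X_eq, fourier_flow]
  congr 2
  push_cast
  ring

lemma mFourier_flow {S : Finset ℕ} (c : S → ℤ) (t : ℝ) :
    mFourier c (fun p : S => flow t p) =
      Complex.exp (((-∑ i : S, (c i : ℝ) * Real.log (i : ℕ)) * t : ℝ) * Complex.I) := by
  unfold mFourier
  rw [ContinuousMap.coe_mk]
  simp only [fourier_flow]
  rw [← Complex.exp_sum]
  congr 1
  push_cast
  simp only [neg_mul, Finset.sum_mul, Finset.sum_neg_distrib]
  congr 1
  refine Finset.sum_congr rfl fun i _ => ?_
  ring

/-- The mean value of a monomial on the torus. -/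
lemma integral_mFourier {S : Finset ℕ} (c : S → ℤ) :
    ∫ x, mFourier c x ∂(Measure.pi fun _ : S => haar) = if c = 0 then 1 else 0 := by
  classical
  have h1 : ∫ x, mFourier c x ∂(Measure.pi fun _ : S => haar) =
      ∏ i : S, ∫ x : UnitAddCircle, fourier (c i) x ∂haar := by
    unfold mFourier
    exact integral_fintype_prod_eq_prod (𝕜 := ℂ) (fun (i : S) (x : UnitAddCircle) =>
      fourier (c i) x)
  rw [h1]
  have h2 : ∀ k : ℤ, ∫ x : UnitAddCircle, fourier k x ∂haar = if k = 0 then 1 else 0 := by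
    intro k
    have h3 := fourierCoeff_fourier (T := (1 : ℝ)) k
    have h4 := congrFun h3 0
    unfold fourierCoeff at h4
    simp only [neg_zero, fourier_zero, one_smul] at h4
    rw [h4, Pi.single_apply]
    by_cases hk : k = 0
    · simp [hk]
    · simp [hk, Ne.symm hk]
  simp only [h2]
  by_cases hc : c = 0
  · subst hc
    simp
  · rw [if_neg hc]
    obtain ⟨i, hi⟩ := Function.ne_iff.1 hc
    exact Finset.prod_eq_zero (Finset.mem_univ i) (if_neg hi)

/-- **Kronecker–Weyl, uniformly in all windows.** -/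
theorem kw {S : Finset ℕ} (hS : ∀ p ∈ S, p.Prime) (Ψ : C(UnitAddTorus S, ℂ)) :
    Tendsto (wm fun t : ℝ => Ψ (fun p : S => flow t p)) windows
      (𝓝 (∫ x, Ψ x ∂(Measure.pi fun _ : S => haar))) := by
  classical
  have hcf : Continuous fun t : ℝ => (fun p : S => flow t p) :=
    continuous_pi fun p => continuous_flow p
  have hint : ∀ (Φ : C(UnitAddTorus S, ℂ)) (a b : ℝ),
      IntervalIntegrable (fun t : ℝ => Φ (fun p : S => flow t p)) volume a b :=
    fun Φ a b => (Φ.continuous.comp hcf).intervalIntegrable _ _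
  have hintX : ∀ Φ : C(UnitAddTorus S, ℂ), Integrable Φ (Measure.pi fun _ : S => haar) := by
    intro Φ
    refine Integrable.of_bound Φ.continuous.aestronglyMeasurable ‖Φ‖ ?_
    exact Eventually.of_forall fun x => Φ.norm_coe_le_norm x
  -- the monomials
  have hmon : ∀ c : S → ℤ, Tendsto (wm fun t : ℝ => mFourier c (fun p : S => flow t p)) windows
      (𝓝 (∫ x, mFourier c x ∂(Measure.pi fun _ : S => haar))) := by
    intro c
    rw [integral_mFourier]
    by_cases hc : c = 0
    · rw [if_pos hc]
      subst hc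
      refine Tendsto.congr' ?_ tendsto_const_nhds
      filter_upwards [windows_pos] with z hz
      have h1 : (fun t : ℝ => mFourier (0 : S → ℤ) (fun p : S => flow t p)) = fun _ => (1 : ℂ) := by
        funext t
        rw [mFourier_zero]
        rfl
      rw [h1, wm_const _ hz]
    · rw [if_neg hc]
      simp only [mFourier_flow]
      refine exp_window ?_
      rw [neg_ne_zero]
      exact log_ne_zero hS hc
  -- the span
  have hspan : ∀ Φ ∈ Submodule.span ℂ (Set.range (mFourier (d := S))),
      Tendsto (wm fun t : ℝ => Φ (fun p : S => flow t p)) windows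
        (𝓝 (∫ x, Φ x ∂(Measure.pi fun _ : S => haar))) := by
    intro Φ hΦ
    induction hΦ using Submodule.span_induction with
    | mem x hx =>
      obtain ⟨c, rfl⟩ := hx
      exact hmon c
    | zero =>
      have h1 : (wm fun t : ℝ => (0 : C(UnitAddTorus S, ℂ)) (fun p : S => flow t p)) =
          fun _ => 0 := by
        funext z
        simp [wm]
      rw [h1]
      simp
    | add x y _ _ hx hy =>
      have h1 : (wm fun t : ℝ => (x + y) (fun p : S => flow t p)) =
          fun z => wm (fun t : ℝ => x (fun p : S => flow t p)) z +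
            wm (fun t : ℝ => y (fun p : S => flow t p)) z := by
        funext z
        unfold wm
        rw [← smul_add, ← intervalIntegral.integral_add (hint x _ _) (hint y _ _)]
        rfl
      rw [h1]
      have h2 : ∫ w, (x + y) w ∂(Measure.pi fun _ : S => haar) =
          ∫ w, x w ∂(Measure.pi fun _ : S => haar) +
            ∫ w, y w ∂(Measure.pi fun _ : S => haar) := by
        rw [← integral_add (hintX x) (hintX y)]
        rfl
      rw [h2]
      exact hx.add hy
    | smul a x _ hx =>
      have h1 : (wm fun t : ℝ => (a • x) (fun p : S => flow t p)) =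
          fun z => a * wm (fun t : ℝ => x (fun p : S => flow t p)) z := by
        funext z
        unfold wm
        rw [mul_smul_comm, ← intervalIntegral.integral_const_mul]
        rfl
      rw [h1]
      have h2 : ∫ w, (a • x) w ∂(Measure.pi fun _ : S => haar) =
          a * ∫ w, x w ∂(Measure.pi fun _ : S => haar) := by
        rw [← integral_const_mul]
        rfl
      rw [h2]
      exact hx.const_mul a
  -- the closure
  rw [Metric.tendsto_nhds]
  intro ε hε
  have hΨ : Ψ ∈ closure (Submodule.span ℂ (Set.range (mFourier (d := S))) : Set _) := by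
    have h1 := span_mFourier_closure_eq_top (d := S)
    have h2 : Ψ ∈ (Submodule.span ℂ (Set.range (mFourier (d := S)))).topologicalClosure := by
      rw [h1]
      trivial
    exact h2
  obtain ⟨Φ, hΦ, hd⟩ := Metric.mem_closure_iff.1 hΨ (ε / 3) (by positivity)
  have hle : ∀ x, ‖Ψ x - Φ x‖ ≤ ε / 3 := by
    intro x
    have h1 := (Ψ - Φ).norm_coe_le_norm x
    rw [ContinuousMap.sub_apply] at h1
    rw [dist_eq_norm] at hd
    exact h1.trans hd.le
  have h3 := (Metric.tendsto_nhds.1 (hspan Φ hΦ)) (ε / 3) (by positivity)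
  filter_upwards [h3, windows_pos] with z hz hz0
  have h4 : ‖wm (fun t : ℝ => Ψ (fun p : S => flow t p)) z -
      wm (fun t : ℝ => Φ (fun p : S => flow t p)) z‖ ≤ ε / 3 := by
    rw [← wm_sub (hint Ψ _ _) (hint Φ _ _)]
    exact wm_norm_le (fun t => hle _) hz0
  have h5 : ‖∫ x, Ψ x ∂(Measure.pi fun _ : S => haar) -
      ∫ x, Φ x ∂(Measure.pi fun _ : S => haar)‖ ≤ ε / 3 := by
    rw [← integral_sub (hintX Ψ) (hintX Φ)]
    refine (norm_integral_le_of_norm_le_const (Eventually.of_forall hle)).trans ?_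
    simp
  rw [dist_eq_norm] at hz ⊢
  have h6 : wm (fun t : ℝ => Ψ (fun p : S => flow t p)) z -
      ∫ x, Ψ x ∂(Measure.pi fun _ : S => haar) =
      (wm (fun t : ℝ => Ψ (fun p : S => flow t p)) z -
        wm (fun t : ℝ => Φ (fun p : S => flow t p)) z) +
      (wm (fun t : ℝ => Φ (fun p : S => flow t p)) z -
        ∫ x, Φ x ∂(Measure.pi fun _ : S => haar)) -
      (∫ x, Ψ x ∂(Measure.pi fun _ : S => haar) -
        ∫ x, Φ x ∂(Measure.pi fun _ : S => haar)) := by ring
  rw [h6]
  refine lt_of_le_of_lt (norm_sub_le _ _) ?_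
  have h7 := norm_add_le (wm (fun t : ℝ => Ψ (fun p : S => flow t p)) z -
        wm (fun t : ℝ => Φ (fun p : S => flow t p)) z)
      (wm (fun t : ℝ => Φ (fun p : S => flow t p)) z -
        ∫ x, Φ x ∂(Measure.pi fun _ : S => haar))
  linarith

end Pool.Agent.T6.H4.AP
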