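import Pool.Agent.T6.H4.AP.Rand

/-!
# The limit law: an abstract theorem
-/

set_option autoImplicit false
set_option linter.unusedSectionVars false

namespace Pool.Agent.T6.H4.AP

open MeasureTheory Filter Topology AddCircle UnitAddTorus
open scoped ComplexConjugate ENNReal NNReal

lemma kw_real {S : Finset ℕ} (hS : ∀ p ∈ S, p.Prime) {f : (S → UnitAddCircle) → ℝ}
    (hf : Continuous f) :
    Tendsto (wm fun t : ℝ => f (fun p : S => flow t p)) windows
      (𝓝 (∫ x, f x ∂(Measure.pi fun _ : S => haar))) := by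
  have h1 := kw hS (⟨fun x => (f x : ℂ), by fun_prop⟩ : C(UnitAddTorus S, ℂ))
  simp only [ContinuousMap.coe_mk] at h1
  have h2 : (wm fun t : ℝ => ((f (fun p : S => flow t p) : ℝ) : ℂ)) =
      fun z => ((wm (fun t : ℝ => f (fun p : S => flow t p)) z : ℝ) : ℂ) := by
    funext z
    unfold wm
    rw [intervalIntegral.integral_ofReal, Complex.real_smul, smul_eq_mul]
    push_cast
    ring
  rw [h2, integral_complex_ofReal] at h1
  exact (Complex.continuous_re.tendsto _).comp h1

section

variable {E : Type*} [NormedAddCommGroup E] [NormedSpace ℝ E] [MeasurableSpace E] [BorelSpace E]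
  [SecondCountableTopology E] [CompleteSpace E]

/-- A continuous function of finitely many coordinates, all of them prime. -/
def Cyl (U : (ℕ → UnitAddCircle) → E) : Prop :=
  ∃ S : Finset ℕ, (∀ p ∈ S, p.Prime) ∧ ∃ Ψ : (S → UnitAddCircle) → E, Continuous Ψ ∧
    ∀ ω, U ω = Ψ (S.restrict ω)

lemma Cyl.continuous {U : (ℕ → UnitAddCircle) → E} (h : Cyl U) : Continuous U := by
  obtain ⟨S, _, Ψ, hΨ, h1⟩ := h
  have h2 : U = fun ω => Ψ (S.restrict ω) := funext h1
  rw [h2]
  exact hΨ.comp (continuous_pi fun p => continuous_apply _)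

lemma Cyl.bounded {U : (ℕ → UnitAddCircle) → E} (h : Cyl U) : ∃ C : ℝ, ∀ ω, ‖U ω‖ ≤ C := by
  obtain ⟨C, hC⟩ := (isCompact_range h.continuous).isBounded.exists_norm_le
  exact ⟨C, fun ω => hC _ ⟨ω, rfl⟩⟩

lemma Cyl.integrable {U : (ℕ → UnitAddCircle) → E} (h : Cyl U) : Integrable U PP := by
  obtain ⟨C, hC⟩ := h.bounded
  exact Integrable.of_bound h.continuous.aestronglyMeasurable C (Eventually.of_forall hC)

lemma Cyl.continuous_flow {U : (ℕ → UnitAddCircle) → E} (h : Cyl U) :
    Continuous fun t => U (flow t) :=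
  h.continuous.comp (continuous_pi fun n => Pool.Agent.T6.H4.AP.continuous_flow n)

/-- Window means of a real function of a cylinder function. -/
lemma Cyl.window {U : (ℕ → UnitAddCircle) → E} (h : Cyl U) {f : E → ℝ} (hf : Continuous f) :
    Tendsto (wm fun t : ℝ => f (U (flow t))) windows (𝓝 (∫ ω, f (U ω) ∂PP)) := by
  obtain ⟨S, hS, Ψ, hΨ, h1⟩ := h
  have h2 := kw_real hS (hf.comp hΨ)
  have h3 : ∫ ω, f (U ω) ∂PP = ∫ x, (f ∘ Ψ) x ∂(Measure.pi fun _ : S => haar) := by
    rw [← integral_restrict S (hf.comp hΨ).aestronglyMeasurable]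
    congr 1
    funext ω
    rw [h1]
    rfl
  rw [h3]
  refine h2.congr fun z => ?_
  congr 1
  funext t
  rw [h1]
  rfl

/-- The hypotheses of the abstract theorem. -/
structure Approx (U : ℕ → (ℕ → UnitAddCircle) → E) (η : ℕ → ℝ) (u : ℝ → E) : Prop where
  cyl : ∀ x, Cyl (U x)
  tend : Tendsto η atTop (𝓝 0)
  rand : ∀ x y, x ≤ y → ∫ ω, ‖U y ω - U x ω‖ ∂PP ≤ η x
  wind : ∀ x y, x ≤ y → ∀ A : ℝ, ∫ t in A..A + 1, ‖U y (flow t) - U x (flow t)‖ ≤ η x
  lim : ∀ᵐ t : ℝ, Tendsto (fun x => U x (flow t)) atTop (𝓝 (u t))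

variable {U : ℕ → (ℕ → UnitAddCircle) → E} {η : ℕ → ℝ} {u : ℝ → E}

lemma Approx.aemeas (h : Approx U η u) : AEMeasurable u volume :=
  aemeasurable_of_tendsto_metrizable_ae atTop
    (fun x => (h.cyl x).continuous_flow.measurable.aemeasurable) h.lim

lemma Approx.nonneg (h : Approx U η u) (x : ℕ) : 0 ≤ η x := by
  have h1 := h.rand x x le_rfl
  simpa using h1

lemma Approx.lint (h : Approx U η u) (x : ℕ) (A : ℝ) :
    ∫⁻ t in Set.Ioc A (A + 1), ‖u t - U x (flow t)‖ₑ ≤ ENNReal.ofReal (η x) := by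
  have h0 : ∀ y, x ≤ y → ∫⁻ t in Set.Ioc A (A + 1), ‖U y (flow t) - U x (flow t)‖ₑ ≤
      ENNReal.ofReal (η x) := by
    intro y hy
    have h1 := h.wind x y hy A
    have hc : Continuous fun t => U y (flow t) - U x (flow t) :=
      (h.cyl y).continuous_flow.sub (h.cyl x).continuous_flow
    have hi : Integrable (fun t => U y (flow t) - U x (flow t))
        (volume.restrict (Set.Ioc A (A + 1))) :=
      (hc.intervalIntegrable A (A + 1)).1
    rw [intervalIntegral.integral_of_le (by linarith)] at h1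
    rw [← ofReal_integral_norm_eq_lintegral_enorm hi]
    exact ENNReal.ofReal_le_ofReal h1
  have h2 : ∀ᵐ t ∂(volume.restrict (Set.Ioc A (A + 1))),
      ‖u t - U x (flow t)‖ₑ ≤ liminf (fun y => ‖U y (flow t) - U x (flow t)‖ₑ) atTop := by
    filter_upwards [ae_restrict_of_ae h.lim] with t ht
    have h3 : Tendsto (fun y => ‖U y (flow t) - U x (flow t)‖ₑ) atTop
        (𝓝 ‖u t - U x (flow t)‖ₑ) :=
      (continuous_enorm.tendsto _).comp (ht.sub_const _)
    exact h3.liminf_eq.ge
  calc ∫⁻ t in Set.Ioc A (A + 1), ‖u t - U x (flow t)‖ₑ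
      ≤ ∫⁻ t in Set.Ioc A (A + 1), liminf (fun y => ‖U y (flow t) - U x (flow t)‖ₑ) atTop :=
        lintegral_mono_ae h2
    _ ≤ liminf (fun y => ∫⁻ t in Set.Ioc A (A + 1), ‖U y (flow t) - U x (flow t)‖ₑ) atTop := by
        refine lintegral_liminf_le fun y => ?_
        exact ((h.cyl y).continuous_flow.sub (h.cyl x).continuous_flow).enorm.measurable
    _ ≤ ENNReal.ofReal (η x) := by
        refine liminf_le_of_frequently_le' ?_
        refine Eventually.frequently ?_
        filter_upwards [eventually_ge_atTop x] with y hy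
        exact h0 y hy

lemma Approx.integrable (h : Approx U η u) (x : ℕ) (A : ℝ) :
    Integrable (fun t => u t - U x (flow t)) (volume.restrict (Set.Ioc A (A + 1))) := by
  refine ⟨?_, ?_⟩
  · exact (h.aemeas.restrict.sub ((h.cyl x).continuous_flow.measurable.aemeasurable.restrict)).aestronglyMeasurable
  · exact (h.lint x A).trans_lt ENNReal.ofReal_lt_top

lemma Approx.unit (h : Approx U η u) (x : ℕ) (A : ℝ) :
    ∫ t in A..A + 1, ‖u t - U x (flow t)‖ ≤ η x := by
  rw [intervalIntegral.integral_of_le (by linarith)]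
  have h1 := h.lint x A
  rw [← ofReal_integral_norm_eq_lintegral_enorm (h.integrable x A)] at h1
  exact (ENNReal.ofReal_le_ofReal_iff (h.nonneg x)).1 h1

lemma Approx.ii (h : Approx U η u) (x : ℕ) (a b : ℝ) :
    IntervalIntegrable (fun t => ‖u t - U x (flow t)‖) volume a b := by
  have h1 : LocallyIntegrable (fun t => u t - U x (flow t)) volume := by
    intro t
    refine ⟨Set.Ioc (t - 1 / 2) (t - 1 / 2 + 1), ?_, h.integrable x (t - 1 / 2)⟩
    exact Ioc_mem_nhds (by linarith) (by linarith)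
  have h2 : IntervalIntegrable (fun t => u t - U x (flow t)) volume a b := by
    rw [intervalIntegrable_iff]
    exact (h1.integrableOn_isCompact isCompact_uIcc).mono_set Set.uIoc_subset_uIcc
  exact h2.norm

/-- Windows of length at least one. -/
lemma Approx.window_le (h : Approx U η u) (x : ℕ) {z : ℝ × ℝ} (hz : 1 ≤ z.2) :
    wm (fun t => ‖u t - U x (flow t)‖) z ≤ 2 * η x := by
  have hsum : ∀ n : ℕ, ∫ t in z.1..z.1 + n, ‖u t - U x (flow t)‖ ≤ n * η x := by
    intro n
    induction n with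
    | zero => simp
    | succ n ih =>
      have h1 := intervalIntegral.integral_add_adjacent_intervals
        (h.ii x z.1 (z.1 + n)) (h.ii x (z.1 + n) (z.1 + n + 1))
      have h2 := h.unit x (z.1 + n)
      push_cast
      rw [← add_assoc, ← h1]
      linarith
  have h3 : ∫ t in z.1..z.1 + z.2, ‖u t - U x (flow t)‖ ≤ ⌈z.2⌉₊ * η x := by
    refine le_trans ?_ (hsum ⌈z.2⌉₊)
    refine intervalIntegral.integral_mono_interval le_rfl (by linarith) ?_ ?_ (h.ii x _ _)
    · have := Nat.le_ceil z.2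
      linarith
    · exact Eventually.of_forall fun t => norm_nonneg _
  have h4 : (⌈z.2⌉₊ : ℝ) ≤ 2 * z.2 := by
    have := Nat.ceil_lt_add_one (by linarith : 0 ≤ z.2)
    linarith
  unfold wm
  rw [smul_eq_mul]
  have hz0 : 0 < z.2 := by linarith
  calc z.2⁻¹ * ∫ t in z.1..z.1 + z.2, ‖u t - U x (flow t)‖
      ≤ z.2⁻¹ * (2 * z.2 * η x) := by
        refine mul_le_mul_of_nonneg_left (h3.trans ?_) (by positivity)
        exact mul_le_mul_of_nonneg_right h4 (h.nonneg x)
    _ = 2 * η x := by field_simp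

/-- The limit of the random sums. -/
lemma Approx.exists_limit (h : Approx U η u) :
    ∃ V : (ℕ → UnitAddCircle) → E, Integrable V PP ∧
      Tendsto (fun x => ∫ ω, ‖U x ω - V ω‖ ∂PP) atTop (𝓝 0) := by
  set a : ℕ → (ℕ → UnitAddCircle) →₁[PP] E := fun x => (h.cyl x).integrable.toL1 (U x) with ha
  have hdist : ∀ x y, dist (a x) (a y) = ∫ ω, ‖U x ω - U y ω‖ ∂PP := by
    intro x y
    rw [dist_eq_norm, ha]
    simp only
    rw [← Integrable.toL1_sub, L1.norm_of_fun_eq_integral_norm]
    rfl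
  have hcau : CauchySeq a := by
    refine Metric.cauchySeq_iff'.2 fun ε hε => ?_
    obtain ⟨N, hN⟩ := (h.tend.eventually (gt_mem_nhds hε)).exists
    refine ⟨N, fun n hn => ?_⟩
    rw [hdist]
    exact (h.rand N n hn).trans_lt hN
  obtain ⟨l, hl⟩ := cauchySeq_tendsto_of_complete hcau
  refine ⟨l, L1.integrable_coeFn l, ?_⟩
  have h1 : ∀ x, ∫ ω, ‖U x ω - l ω‖ ∂PP = dist (a x) l := by
    intro x
    rw [dist_eq_norm, L1.norm_eq_integral_norm]
    refine integral_congr_ae ?_
    filter_upwards [Lp.coeFn_sub (a x) l, (h.cyl x).integrable.coeFn_toL1] with ω h2 h3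
    rw [h2, Pi.sub_apply, h3]
  simp only [h1]
  exact tendsto_iff_dist_tendsto_zero.1 hl

lemma Approx.lip (h : Approx U η u) {V : (ℕ → UnitAddCircle) → E} (hV : Integrable V PP)
    {f : E → ℝ} {C : ℝ} (hC : ∀ y, ‖f y‖ ≤ C) {L : ℝ≥0} (hL : LipschitzWith L f) (x : ℕ) :
    ‖∫ ω, f (U x ω) ∂PP - ∫ ω, f (V ω) ∂PP‖ ≤ L * ∫ ω, ‖U x ω - V ω‖ ∂PP := by
  have h1 : Integrable (fun ω => f (U x ω)) PP :=
    Integrable.of_bound (hL.continuous.comp (h.cyl x).continuous).aestronglyMeasurable C
      (Eventually.of_forall fun ω => hC _)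
  have h2 : Integrable (fun ω => f (V ω)) PP :=
    Integrable.of_bound (hL.continuous.comp_aestronglyMeasurable hV.1) C
      (Eventually.of_forall fun ω => hC _)
  rw [← integral_sub h1 h2, ← integral_const_mul]
  refine norm_integral_le_of_norm_le ((((h.cyl x).integrable.sub hV).norm).const_mul _) ?_
  refine Eventually.of_forall fun ω => ?_
  rw [← dist_eq_norm, ← dist_eq_norm]
  exact hL.dist_le_mul _ _

/-- The normalised Lebesgue measure of a window, transported by `u`. -/
noncomputable def winLaw (u : ℝ → E) (z : ℝ × ℝ) : Measure E :=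
  Measure.map u ((ENNReal.ofReal z.2)⁻¹ • volume.restrict (Set.Ioc z.1 (z.1 + z.2)))

lemma winLaw_prob (hu : AEMeasurable u volume) {z : ℝ × ℝ} (hz : 0 < z.2) :
    IsProbabilityMeasure (winLaw u z) := by
  have h1 : IsProbabilityMeasure
      ((ENNReal.ofReal z.2)⁻¹ • volume.restrict (Set.Ioc z.1 (z.1 + z.2)) : Measure ℝ) := by
    constructor
    rw [Measure.smul_apply, Measure.restrict_apply_univ, Real.volume_Ioc, add_sub_cancel_left,
      smul_eq_mul]
    exact ENNReal.inv_mul_cancel (by simpa using hz) ENNReal.ofReal_ne_top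
  exact Measure.isProbabilityMeasure_map ((hu.restrict).smul_measure _)

lemma winLaw_integral (hu : AEMeasurable u volume) {f : E → ℝ} (hf : Continuous f) {z : ℝ × ℝ}
    (hz : 0 < z.2) : ∫ y, f y ∂(winLaw u z) = wm (fun t => f (u t)) z := by
  unfold winLaw wm
  rw [integral_map ((hu.restrict).smul_measure _) hf.aestronglyMeasurable, integral_smul_measure,
    intervalIntegral.integral_of_le (by linarith), ENNReal.toReal_inv,
    ENNReal.toReal_ofReal hz.le]

lemma wm_norm_le' {f : ℝ → ℝ} {g : ℝ → ℝ} {z : ℝ × ℝ} (hz : 0 < z.2)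
    (hg : IntervalIntegrable g volume z.1 (z.1 + z.2)) (h : ∀ t, ‖f t‖ ≤ g t) :
    ‖wm f z‖ ≤ wm g z := by
  unfold wm
  rw [norm_smul, norm_inv, Real.norm_of_nonneg hz.le, smul_eq_mul]
  refine mul_le_mul_of_nonneg_left ?_ (by positivity)
  exact intervalIntegral.norm_integral_le_of_norm_le (by linarith)
    (Eventually.of_forall fun t _ => h t) hg

/-- **The limit law.** -/
theorem Approx.law (h : Approx U η u) : ∃ μ : ProbabilityMeasure E,
    (∀ f : BoundedContinuousFunction E ℝ,
      Tendsto (fun x => ∫ ω, f (U x ω) ∂PP) atTop (𝓝 (∫ y, f y ∂(μ : Measure E)))) ∧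
    ∀ f : BoundedContinuousFunction E ℝ,
      Tendsto (wm fun t => f (u t)) windows (𝓝 (∫ y, f y ∂(μ : Measure E))) := by
  classical
  obtain ⟨V, hV, hVt⟩ := h.exists_limit
  have hVm : AEMeasurable V PP := hV.1.aemeasurable
  set μ : ProbabilityMeasure E := ⟨PP.map V, Measure.isProbabilityMeasure_map hVm⟩ with hμ
  have hμi : ∀ f : E → ℝ, Continuous f → ∫ y, f y ∂(μ : Measure E) = ∫ ω, f (V ω) ∂PP := by
    intro f hf
    rw [hμ]
    exact integral_map hVm hf.aestronglyMeasurable
  have hmain : ∀ (f : E → ℝ) (C : ℝ) (L : ℝ≥0), (∀ y, ‖f y‖ ≤ C) → LipschitzWith L f →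
      Tendsto (fun x => ∫ ω, f (U x ω) ∂PP) atTop (𝓝 (∫ ω, f (V ω) ∂PP)) := by
    intro f C L hC hL
    rw [tendsto_iff_norm_sub_tendsto_zero]
    refine squeeze_zero (fun _ => norm_nonneg _) (fun x => h.lip hV hC hL x) ?_
    simpa using hVt.const_mul (L : ℝ)
  have hbd : ∀ f : E → ℝ, (∃ C : ℝ, ∀ x y, dist (f x) (f y) ≤ C) → ∃ C : ℝ, ∀ y, ‖f y‖ ≤ C := by
    rintro f ⟨C, hC⟩
    refine ⟨C + ‖f 0‖, fun y => ?_⟩
    have h1 := hC y 0
    rw [dist_eq_norm] at h1
    have h2 := norm_add_le (f y - f 0) (f 0)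
    rw [sub_add_cancel] at h2
    linarith
  refine ⟨μ, ?_, ?_⟩
  · set ν : ℕ → ProbabilityMeasure E := fun x =>
      ⟨PP.map (U x), Measure.isProbabilityMeasure_map (h.cyl x).integrable.1.aemeasurable⟩ with hν
    have hνi : ∀ (x : ℕ) (f : E → ℝ), Continuous f →
        ∫ y, f y ∂(ν x : Measure E) = ∫ ω, f (U x ω) ∂PP := by
      intro x f hf
      exact integral_map (h.cyl x).integrable.1.aemeasurable hf.aestronglyMeasurable
    have h1 : Tendsto ν atTop (𝓝 μ) := by
      rw [tendsto_iff_forall_lipschitz_integral_tendsto]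
      rintro f hf ⟨L, hL⟩
      obtain ⟨C, hC⟩ := hbd f hf
      rw [hμi f hL.continuous]
      refine (hmain f C L hC hL).congr fun x => ?_
      rw [hνi x f hL.continuous]
    intro f
    have h2 := (ProbabilityMeasure.tendsto_iff_forall_integral_tendsto.1 h1) f
    refine h2.congr fun x => ?_
    rw [hνi x f f.continuous]
  · have hum := h.aemeas
    set ν : ℝ × ℝ → ProbabilityMeasure E := fun z =>
      if hz : 0 < z.2 then ⟨winLaw u z, winLaw_prob hum hz⟩ else μ with hν
    have hνi : ∀ (z : ℝ × ℝ) (f : E → ℝ), 0 < z.2 → Continuous f →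
        ∫ y, f y ∂(ν z : Measure E) = wm (fun t => f (u t)) z := by
      intro z f hz hf
      have h0 : ν z = ⟨winLaw u z, winLaw_prob hum hz⟩ := dif_pos hz
      have h1 : (ν z : Measure E) = winLaw u z := by
        rw [h0]
        rfl
      rw [h1, winLaw_integral hum hf hz]
    have h1 : Tendsto ν windows (𝓝 μ) := by
      rw [tendsto_iff_forall_lipschitz_integral_tendsto]
      rintro f hf ⟨L, hL⟩
      obtain ⟨C, hC⟩ := hbd f hf
      rw [hμi f hL.continuous, Metric.tendsto_nhds]
      intro ε hε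
      have hL0 : (0 : ℝ) ≤ L := L.2
      -- choose the level
      have h2 : Tendsto (fun x => (L : ℝ) * (2 * η x)) atTop (𝓝 0) := by
        simpa using (h.tend.const_mul (2 : ℝ)).const_mul (L : ℝ)
      have h3 := (tendsto_iff_norm_sub_tendsto_zero.1 (hmain f C L hC hL)).eventually
        (gt_mem_nhds (by positivity : (0 : ℝ) < ε / 3))
      obtain ⟨x, hx1, hx2⟩ := ((h2.eventually (gt_mem_nhds (by positivity : (0 : ℝ) < ε / 3))).and
        h3).exists
      have h4 := (Metric.tendsto_nhds.1 ((h.cyl x).window hL.continuous)) (ε / 3) (by positivity)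
      filter_upwards [h4, windows_ev (eventually_ge_atTop 1)] with z hz hz1
      have hz0 : 0 < z.2 := by linarith
      rw [hνi z f hz0 hL.continuous, dist_eq_norm]
      rw [dist_eq_norm] at hz
      have hfu : IntervalIntegrable (fun t => f (u t)) volume z.1 (z.1 + z.2) := by
        rw [intervalIntegrable_iff_integrableOn_Ioc_of_le (by linarith)]
        refine Integrable.of_bound (C := C) ?_ (Eventually.of_forall fun t => hC _)
        exact (hL.continuous.measurable.comp_aemeasurable hum.restrict).aestronglyMeasurable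
      have hfU : IntervalIntegrable (fun t => f (U x (flow t))) volume z.1 (z.1 + z.2) :=
        (hL.continuous.comp (h.cyl x).continuous_flow).intervalIntegrable _ _
      have h5 : ‖wm (fun t => f (u t)) z - wm (fun t => f (U x (flow t))) z‖ ≤ ε / 3 := by
        rw [← wm_sub hfu hfU]
        have h6 : ‖wm (fun t => f (u t) - f (U x (flow t))) z‖ ≤
            wm (fun t => (L : ℝ) * ‖u t - U x (flow t)‖) z := by
          refine wm_norm_le' hz0 ((h.ii x _ _).const_mul _) fun t => ?_
          rw [← dist_eq_norm, ← dist_eq_norm]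
          exact hL.dist_le_mul _ _
        have h7 : wm (fun t => (L : ℝ) * ‖u t - U x (flow t)‖) z =
            L * wm (fun t => ‖u t - U x (flow t)‖) z := by
          unfold wm
          rw [intervalIntegral.integral_const_mul, smul_eq_mul, smul_eq_mul]
          ring
        have h8 := h.window_le x hz1
        calc _ ≤ _ := h6
          _ = _ := h7
          _ ≤ L * (2 * η x) := mul_le_mul_of_nonneg_left h8 hL0
          _ ≤ ε / 3 := hx1.le
      have h9 : wm (fun t => f (u t)) z - ∫ ω, f (V ω) ∂PP =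
          (wm (fun t => f (u t)) z - wm (fun t => f (U x (flow t))) z) +
          (wm (fun t => f (U x (flow t))) z - ∫ ω, f (U x ω) ∂PP) +
          (∫ ω, f (U x ω) ∂PP - ∫ ω, f (V ω) ∂PP) := by ring
      rw [h9]
      refine lt_of_le_of_lt (norm_add₃_le ..) ?_
      linarith
    intro f
    have h2 := (ProbabilityMeasure.tendsto_iff_forall_integral_tendsto.1 h1) f
    refine h2.congr' ?_
    filter_upwards [windows_pos] with z hz
    rw [hνi z f hz f.continuous]

end

end Pool.Agent.T6.H4.AP
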