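import Pool.Agent.T6.H4.AP.Jnt

/-!
# The joint theorem for systems with a weight bound: assembly
-/

set_option autoImplicit false
set_option linter.unusedSectionVars false

namespace Pool.Agent.T6.H4.AP

open MeasureTheory Filter Topology AddCircle UnitAddTorus Polynomial
open Pool.Agent.W350.Edge
open scoped ComplexConjugate ENNReal NNReal

section Joint

variable {ι : Type} [Fintype ι] {t : ι → ℕ → ℕ → ℂ} {S : ι → Finset ℕ} {D w : ι → ℝ}
  {B : ι → ℕ → ℂ[X]}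

/-- The boundary values. -/
noncomputable def ell (t : ι → ℕ → ℕ → ℂ) (B : ι → ℕ → ℂ[X]) (w : ι → ℝ) (S : ι → Finset ℕ)
    (τ : ι → ℝ) (j : ι) (r : ℝ) : ℂ :=
  bb (B j) (w j) (S j) (τ j) (flow r) * Complex.exp (VL (t j) (w j) (S j) (τ j) r)

/-- The exceptional set. -/
def EE (t : ι → ℕ → ℕ → ℂ) (w : ι → ℝ) (S : ι → Finset ℕ) (τ : ι → ℝ) : Set ℝ :=
  ⋃ j, DV (t j) (w j) (S j) (τ j)

lemma dimH_EE (ht : ∀ j, WB (t j) (w j) (S j) (D j)) (τ : ι → ℝ) : dimH (EE t w S τ) = 0 := by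
  unfold EE
  rw [dimH_iUnion]
  simp only [dimH_DV (ht _)]
  simp

lemma ell_ne (hB : ∀ j, ∀ p ∈ S j, p.Prime → ∀ r : ℝ, (B j p).eval ((p : ℂ) ^ (-(sp (w j) r))) ≠ 0)
    (τ : ι → ℝ) (j : ι) (r : ℝ) : ell t B w S τ j r ≠ 0 :=
  mul_ne_zero (bb_ne (hB j) _ _) (Complex.exp_ne_zero _)

/-- A function with the values of the partial products. -/
structure IsFac (t : ℕ → ℕ → ℂ) (B : ℕ → ℂ[X]) (w : ℝ) (S : Finset ℕ) (τ : ℝ)
    (F : ℕ → UnitAddCircle → ℂ) : Prop where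
  bad : ∀ p ∈ S, p.Prime → ∀ y, F p y = bf B w τ p y
  good : ∀ p, p ∉ S → p.Prime → ∀ y,
    F p y = Complex.exp (cc t w S τ p * X y + Rf t w S τ p y)

lemma exists_bound (S : Finset ℕ) : ∃ N : ℕ, ∀ x : ℕ, N ≤ x → ∀ p ∈ S, p < x :=
  ⟨S.sup id + 1, fun x hx p hp => by
    have : p ≤ S.sup id := Finset.le_sup (f := id) hp
    omega⟩

/-- Partial products on the line. -/
lemma part_tendsto (ht : ∀ j, WB (t j) (w j) (S j) (D j))
    (τ : ι → ℝ) {F : ι → ℕ → UnitAddCircle → ℂ}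
    (hF : ∀ j, IsFac (t j) (B j) (w j) (S j) (τ j) (F j)) {r : ℝ} (hr : r ∉ EE t w S τ) (j : ι) :
    Tendsto (fun x : ℕ => ∏ p ∈ Nat.primesBelow x, F j p (flow r p)) atTop
      (𝓝 (ell t B w S τ j r)) := by
  have hr' : r ∉ DV (t j) (w j) (S j) (τ j) := fun h => hr (Set.mem_iUnion.2 ⟨j, h⟩)
  obtain ⟨N, hN⟩ := exists_bound (S j)
  have h1 := ((Complex.continuous_exp.tendsto _).comp (VL_tendsto (ht j) hr')).const_mul
    (bb (B j) (w j) (S j) (τ j) (flow r))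
  refine h1.congr' ?_
  filter_upwards [eventually_ge_atTop N] with x hx
  exact (prod_fac (τ j) (hN x hx) (F j) (hF j).bad (hF j).good (flow r)).symm

/-- **Almost periodicity.** -/
theorem almost_periodic (ht : ∀ j, WB (t j) (w j) (S j) (D j))
    (hB : ∀ j, ∀ p ∈ S j, p.Prime → ∀ r : ℝ, (B j p).eval ((p : ℂ) ^ (-(sp (w j) r))) ≠ 0)
    (τ : ι → ℝ) {ε : ℝ} (hε : 0 < ε) : ∃ R : ℝ, 0 < R ∧ ∀ a : ℝ, ∃ s ∈ Set.Icc a (a + R),
      ∀ (j : ι) (A : ℝ), ∫⁻ r in Set.Ioc A (A + 1),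
        ‖Complex.log (ell t B w S τ j (r + s) / ell t B w S τ j r)‖ₑ ≤ ENNReal.ofReal ε := by
  classical
  have hA := joint_approx ht τ
  choose T hT δ hδ hlog using fun j => log_ratio (bb_isCyl (hB j) (τ j)) (bb_ne (hB j) (τ j))
    (by positivity : (0 : ℝ) < ε / 2)
  obtain ⟨δ₀, hδ₀, hδ₁⟩ : ∃ δ₀ : ℝ, 0 < δ₀ ∧ ∀ j, δ₀ ≤ δ j := by
    by_cases hι : Nonempty ι
    · obtain ⟨j₀, hj₀⟩ := Finite.exists_min δ
      exact ⟨δ j₀, hδ j₀, hj₀⟩
    · exact ⟨1, one_pos, fun j => absurd ⟨j⟩ hι⟩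
  obtain ⟨R, hR, h1⟩ := hA.translation (S' := Finset.univ.biUnion T) (fun p hp => by
    obtain ⟨j, _, hj⟩ := Finset.mem_biUnion.1 hp
    exact hT j p hj) (lt_min hδ₀ (by positivity : (0 : ℝ) < ε / 2))
  refine ⟨R, hR, fun a => ?_⟩
  obtain ⟨s, hs, h2, h3⟩ := h1 a
  refine ⟨s, hs, fun j A => ?_⟩
  have h4 : ∀ r : ℝ, ‖Complex.log (bb (B j) (w j) (S j) (τ j) (flow (r + s)) /
      bb (B j) (w j) (S j) (τ j) (flow r))‖ ≤ ε / 2 := by
    refine hlog j s fun p hp => ?_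
    exact (h2 p (Finset.mem_biUnion.2 ⟨j, Finset.mem_univ _, hp⟩)).trans_le
      ((min_le_left _ _).trans (hδ₁ j))
  have h5 : ∀ r : ℝ, ‖Complex.log (ell t B w S τ j (r + s) / ell t B w S τ j r)‖ ≤
      ε / 2 + ‖Ju t w S τ (r + s) - Ju t w S τ r‖ := by
    intro r
    have h6 : ell t B w S τ j (r + s) / ell t B w S τ j r =
        (bb (B j) (w j) (S j) (τ j) (flow (r + s)) / bb (B j) (w j) (S j) (τ j) (flow r)) *
        Complex.exp ((Ju t w S τ (r + s) - Ju t w S τ r) j) := by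
      show _ = _ * Complex.exp (VL (t j) (w j) (S j) (τ j) (r + s) -
        VL (t j) (w j) (S j) (τ j) r)
      unfold ell
      rw [Complex.exp_sub, mul_div_mul_comm]
    rw [h6]
    refine (norm_log_mul_exp (div_ne_zero (bb_ne (hB j) _ _) (bb_ne (hB j) _ _)) _).trans ?_
    exact add_le_add (h4 r) (norm_le_pi_norm _ j)
  have hint : IntervalIntegrable (fun r => ‖Ju t w S τ (r + s) - Ju t w S τ r‖) volume A
      (A + 1) := ((hA.iis s A (A + 1)).sub (hA.iiu A (A + 1))).norm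
  have hint' : IntervalIntegrable (fun r => ε / 2 + ‖Ju t w S τ (r + s) - Ju t w S τ r‖) volume A
      (A + 1) := (continuous_const.intervalIntegrable _ _).add hint
  calc ∫⁻ r in Set.Ioc A (A + 1), ‖Complex.log (ell t B w S τ j (r + s) / ell t B w S τ j r)‖ₑ
      ≤ ∫⁻ r in Set.Ioc A (A + 1), ENNReal.ofReal (ε / 2 +
          ‖Ju t w S τ (r + s) - Ju t w S τ r‖) := by
        refine lintegral_mono fun r => ?_
        rw [← ofReal_norm]
        exact ENNReal.ofReal_le_ofReal (h5 r)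
    _ = ENNReal.ofReal (∫ r in Set.Ioc A (A + 1), (ε / 2 +
          ‖Ju t w S τ (r + s) - Ju t w S τ r‖)) := by
        refine (ofReal_integral_eq_lintegral_ofReal hint'.1 ?_).symm
        exact Eventually.of_forall fun r => by positivity
    _ ≤ ENNReal.ofReal ε := by
        refine ENNReal.ofReal_le_ofReal ?_
        rw [← intervalIntegral.integral_of_le (by linarith),
          intervalIntegral.integral_add (continuous_const.intervalIntegrable _ _) hint,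
          intervalIntegral.integral_const]
        have h6 := h3 A
        have h7 := min_le_right δ₀ (ε / 2)
        simp only [add_sub_cancel_left, one_smul]
        linarith

/-- **The limit law.** -/
theorem limit_law (ht : ∀ j, WB (t j) (w j) (S j) (D j))
    (hB : ∀ j, ∀ p ∈ S j, p.Prime → ∀ r : ℝ, (B j p).eval ((p : ℂ) ^ (-(sp (w j) r))) ≠ 0)
    (τ : ι → ℝ) {F : ι → ℕ → UnitAddCircle → ℂ}
    (hF : ∀ j, IsFac (t j) (B j) (w j) (S j) (τ j) (F j)) :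
    ∃ ν : ProbabilityMeasure (ι → ℂ), ∀ f : BoundedContinuousFunction (ι → ℂ) ℝ,
      Tendsto (fun x : ℕ => ∫ ω, f (fun j => ∏ p ∈ Nat.primesBelow x, F j p (ω p)) ∂PP) atTop
        (𝓝 (∫ y, f y ∂(ν : Measure (ι → ℂ)))) ∧
      Tendsto (wm fun r => f (fun j => ell t B w S τ j r)) windows
        (𝓝 (∫ y, f y ∂(ν : Measure (ι → ℂ)))) := by
  classical
  have hA := (joint_approx ht τ).pair (b := fun ω j => bb (B j) (w j) (S j) (τ j) ω)
    (Cyl.pi fun j => bb_isCyl (hB j) (τ j))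
  obtain ⟨μ, h1, h2⟩ := hA.law
  set Φ : (ι → ℂ) × (ι → ℂ) → (ι → ℂ) := fun z j => z.1 j * Complex.exp (z.2 j) with hΦ
  have hΦc : Continuous Φ := by
    rw [hΦ]
    fun_prop
  refine ⟨⟨(μ : Measure _).map Φ, Measure.isProbabilityMeasure_map hΦc.aemeasurable⟩, fun f => ?_⟩
  have h3 : ∫ y, f y ∂((μ : Measure _).map Φ) = ∫ z, f (Φ z) ∂(μ : Measure _) :=
    integral_map hΦc.aemeasurable f.continuous.aestronglyMeasurable
  rw [ProbabilityMeasure.coe_mk, h3]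
  have h4 := h1 (f.compContinuous ⟨Φ, hΦc⟩)
  have h5 := h2 (f.compContinuous ⟨Φ, hΦc⟩)
  refine ⟨?_, h5⟩
  choose N hN using fun j => exists_bound (S j)
  have h6 : Tendsto (fun x : ℕ => ∫ ω, f (fun j => ∏ p ∈ Nat.primesBelow (x + 3), F j p (ω p)) ∂PP)
      atTop (𝓝 (∫ z, f (Φ z) ∂(μ : Measure _))) := by
    refine h4.congr' ?_
    filter_upwards [eventually_ge_atTop (∑ j, N j)] with x hx
    congr 1
    funext ω
    show f (Φ (fun j => bb (B j) (w j) (S j) (τ j) ω, JU t w S τ x ω)) = _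
    congr 1
    funext j
    refine (prod_fac (τ j) (hN j (x + 3) ?_) (F j) (hF j).bad (hF j).good ω).symm
    have h7 := Finset.single_le_sum (f := N) (fun j _ => Nat.zero_le _) (Finset.mem_univ j)
    omega
  exact (tendsto_add_atTop_iff_nat 3).1 h6

end Joint

end Pool.Agent.T6.H4.AP
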