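import Pool.Agent.T6.H4.AP.Main
import Pool.Agent.H305R2.MertensM

/-!
# Exponential moments of the random Euler product and the tails of the limit law
-/

set_option autoImplicit false
set_option linter.unusedSectionVars false

namespace Pool.Agent.T6.H4.AP

open MeasureTheory Filter Topology AddCircle UnitAddTorus Polynomial
open Pool.Agent.W350.Edge
open scoped ComplexConjugate ENNReal NNReal

lemma exp_le_quad {y K : ℝ} (hy : |y| ≤ K) : Real.exp y ≤ 1 + y + y ^ 2 * Real.exp K := by
  have hK : 0 ≤ K := (abs_nonneg y).trans hy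
  have h1 : 1 ≤ Real.exp K := Real.one_le_exp hK
  have h2 : y ^ 2 ≤ y ^ 2 * Real.exp K := le_mul_of_one_le_right (sq_nonneg y) h1
  by_cases h : |y| ≤ 1
  · have h3 := (abs_le.1 (Real.abs_exp_sub_one_sub_id_le h)).2
    linarith
  · push Not at h
    have h4 : 1 ≤ y ^ 2 := by
      rw [← sq_abs]
      nlinarith
    rcases le_or_gt 0 y with h5 | h5
    · rw [abs_of_nonneg h5] at hy
      have h6 : Real.exp y ≤ Real.exp K := Real.exp_le_exp.2 hy
      have h7 : Real.exp K ≤ y ^ 2 * Real.exp K := le_mul_of_one_le_left (Real.exp_pos _).le h4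
      linarith
    · have h6 : Real.exp y ≤ 1 := Real.exp_le_one_iff.2 h5.le
      have h7 : -(y ^ 2) ≤ y := by
        rw [abs_of_neg h5] at h
        nlinarith
      linarith

lemma mertens_le : ∃ M : ℝ, 0 ≤ M ∧ ∀ k : ℕ, 3 ≤ k →
    ∑ p ∈ (Finset.range k).filter Nat.Prime, (1 : ℝ) / p ≤ Real.log (Real.log k) + M := by
  obtain ⟨M, hM⟩ := Pool.Agent.H305R2.mertens_inv_tendsto
  obtain ⟨C, hC⟩ := hM.bddAbove_range
  refine ⟨max C 0, le_max_right _ _, fun k hk => ?_⟩
  have h1 : ∑ p ∈ (Finset.Icc 1 k).filter Nat.Prime, (1 : ℝ) / p - Real.log (Real.log k) ≤ C :=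
    hC ⟨k, rfl⟩
  have h2 : ∑ p ∈ (Finset.range k).filter Nat.Prime, (1 : ℝ) / p ≤
      ∑ p ∈ (Finset.Icc 1 k).filter Nat.Prime, (1 : ℝ) / p := by
    refine Finset.sum_le_sum_of_subset_of_nonneg (fun p hp => ?_) fun p _ _ => by positivity
    obtain ⟨h3, h4⟩ := Finset.mem_filter.1 hp
    refine Finset.mem_filter.2 ⟨Finset.mem_Icc.2 ⟨h4.one_le, (Finset.mem_range.1 h3).le⟩, h4⟩
  have h3 := le_max_left C 0
  linarith

section Single

variable {t : ℕ → ℕ → ℂ} {S : Finset ℕ} {D w : ℝ}

/-- The real part of the logarithm of a random factor. -/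
noncomputable def vf (t : ℕ → ℕ → ℂ) (w : ℝ) (S : Finset ℕ) (τ : ℝ) (p : ℕ) (y : UnitAddCircle) :
    ℝ := (cc t w S τ p * X y + Rf t w S τ p y).re

lemma continuous_vf (ht : WB t w S D) (τ : ℝ) (p : ℕ) : Continuous (vf t w S τ p) :=
  Complex.continuous_re.comp ((continuous_const.mul continuous_X).add (continuous_Rf ht τ p))

lemma abs_vf (ht : WB t w S D) (τ : ℝ) (p : ℕ) (y : UnitAddCircle) :
    |vf t w S τ p y| ≤ D / p + 2 * D / (p : ℝ) ^ 2 := by
  refine (Complex.abs_re_le_norm _).trans ((norm_add_le _ _).trans ?_)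
  refine add_le_add ?_ (norm_Rf ht τ p y)
  rw [norm_mul, norm_X, mul_one]
  exact norm_cc ht τ p

lemma abs_vf' (ht : WB t w S D) (τ : ℝ) {p : ℕ} (hp : 2 ≤ p) (y : UnitAddCircle) :
    |vf t w S τ p y| ≤ 2 * D / p := by
  refine (abs_vf ht τ p y).trans ?_
  have hD := ht.nonneg
  have hp' : (2 : ℝ) ≤ p := by exact_mod_cast hp
  have h1 : 2 * D / (p : ℝ) ^ 2 ≤ D / p := by
    rw [div_le_div_iff₀ (by positivity) (by positivity)]
    nlinarith [mul_nonneg hD (by linarith : (0 : ℝ) ≤ p)]
  have h2 : 2 * D / (p : ℝ) = D / p + D / p := by ring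
  linarith

lemma integral_vf (ht : WB t w S D) (τ : ℝ) (p : ℕ) :
    |∫ y, vf t w S τ p y ∂haar| ≤ 2 * D / (p : ℝ) ^ 2 := by
  have i1 : Integrable (fun y : UnitAddCircle => cc t w S τ p * X y) haar :=
    (continuous_const.mul continuous_X).integrable_of_hasCompactSupport
      (HasCompactSupport.of_compactSpace _)
  have i2 : Integrable (fun y : UnitAddCircle => Rf t w S τ p y) haar :=
    (continuous_Rf ht τ p).integrable_of_hasCompactSupport (HasCompactSupport.of_compactSpace _)
  have h1 : ∫ y, vf t w S τ p y ∂haar = (∫ y, (cc t w S τ p * X y + Rf t w S τ p y) ∂haar).re := by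
    have := Complex.reCLM.integral_comp_comm (i1.add i2)
    exact this
  rw [h1, integral_add i1 i2, integral_const_mul, integral_X, mul_zero, zero_add]
  refine (Complex.abs_re_le_norm _).trans ?_
  refine (norm_integral_le_of_norm_le_const (Eventually.of_forall (norm_Rf ht τ p))).trans ?_
  simp

/-- The constant. -/
noncomputable def C1 (D : ℝ) : ℝ := 2 * D + 4 * D ^ 2 * Real.exp (2 * D)

lemma moment_large (ht : WB t w S D) (τ : ℝ) {σ : ℝ} (hσ : |σ| = 1) {k p : ℕ} (hk : 1 ≤ k)
    (hkp : k ≤ p) (hp : 2 ≤ p) :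
    ∫ y, Real.exp (σ * k * vf t w S τ p y) ∂haar ≤ Real.exp (C1 D * k ^ 2 * (1 / (p : ℝ) ^ 2)) := by
  have hD := ht.nonneg
  have hp' : (2 : ℝ) ≤ p := by exact_mod_cast hp
  have hk' : (1 : ℝ) ≤ k := by exact_mod_cast hk
  have hkp' : (k : ℝ) ≤ p := by exact_mod_cast hkp
  have hv := fun y => abs_vf' ht τ hp y
  have hy : ∀ y, |σ * k * vf t w S τ p y| ≤ k * (2 * D / p) := by
    intro y
    rw [abs_mul, abs_mul, hσ, one_mul, abs_of_nonneg (by positivity : (0 : ℝ) ≤ k)]
    exact mul_le_mul_of_nonneg_left (hv y) (by positivity)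
  have hy' : ∀ y, |σ * k * vf t w S τ p y| ≤ 2 * D := by
    intro y
    refine (hy y).trans ?_
    have h1 : (k : ℝ) * (2 * D / p) = 2 * D * (k / p) := by ring
    rw [h1]
    refine mul_le_of_le_one_right (by positivity) ?_
    rw [div_le_one (by positivity)]
    exact hkp'
  have hc := continuous_vf ht τ p
  have i1 : Integrable (fun y => vf t w S τ p y) haar :=
    hc.integrable_of_hasCompactSupport (HasCompactSupport.of_compactSpace _)
  calc ∫ y, Real.exp (σ * k * vf t w S τ p y) ∂haar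
      ≤ ∫ y, (1 + (k * (2 * D / p)) ^ 2 * Real.exp (2 * D) + σ * k * vf t w S τ p y) ∂haar := by
        refine integral_mono ?_ ?_ fun y => ?_
        · exact (Real.continuous_exp.comp (continuous_const.mul hc)).integrable_of_hasCompactSupport
            (HasCompactSupport.of_compactSpace _)
        · exact (integrable_const _).add (i1.const_mul _)
        · have h1 := exp_le_quad (hy' y)
          have h2 : (σ * k * vf t w S τ p y) ^ 2 ≤ (k * (2 * D / p)) ^ 2 := by
            rw [← sq_abs]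
            exact pow_le_pow_left₀ (abs_nonneg _) (hy y) 2
          have h3 := mul_le_mul_of_nonneg_right h2 (Real.exp_pos (2 * D)).le
          simp only
          linarith
    _ = 1 + (k * (2 * D / p)) ^ 2 * Real.exp (2 * D) + σ * k * ∫ y, vf t w S τ p y ∂haar := by
        rw [integral_add (integrable_const _) (i1.const_mul _), integral_const_mul, integral_const]
        simp
    _ ≤ 1 + C1 D * k ^ 2 * (1 / (p : ℝ) ^ 2) := by
        have h1 : σ * k * ∫ y, vf t w S τ p y ∂haar ≤ k * (2 * D / (p : ℝ) ^ 2) := by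
          refine (le_abs_self _).trans ?_
          rw [abs_mul, abs_mul, hσ, one_mul, abs_of_nonneg (by positivity : (0 : ℝ) ≤ k)]
          exact mul_le_mul_of_nonneg_left (integral_vf ht τ p) (by positivity)
        have h2 : (k : ℝ) * (2 * D / (p : ℝ) ^ 2) ≤ k ^ 2 * (2 * D / (p : ℝ) ^ 2) := by
          refine mul_le_mul_of_nonneg_right ?_ (by positivity)
          nlinarith
        have h3 : C1 D * k ^ 2 * (1 / (p : ℝ) ^ 2) =
            k ^ 2 * (2 * D / (p : ℝ) ^ 2) + (k * (2 * D / p)) ^ 2 * Real.exp (2 * D) := by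
          unfold C1
          field_simp
          ring
        rw [h3]
        linarith
    _ ≤ Real.exp (C1 D * k ^ 2 * (1 / (p : ℝ) ^ 2)) := by
        rw [add_comm]
        exact Real.add_one_le_exp _

lemma moment_small (ht : WB t w S D) (τ : ℝ) {σ : ℝ} (hσ : |σ| = 1) (k p : ℕ) :
    ∫ y, Real.exp (σ * k * vf t w S τ p y) ∂haar ≤
      Real.exp (k * (D / p + 2 * D / (p : ℝ) ^ 2)) := by
  have hc := continuous_vf ht τ p
  calc ∫ y, Real.exp (σ * k * vf t w S τ p y) ∂haar
      ≤ ∫ _y, Real.exp (k * (D / p + 2 * D / (p : ℝ) ^ 2)) ∂(haar : Measure UnitAddCircle) := by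
        refine integral_mono ?_ (integrable_const _) fun y => ?_
        · exact (Real.continuous_exp.comp (continuous_const.mul hc)).integrable_of_hasCompactSupport
            (HasCompactSupport.of_compactSpace _)
        · refine Real.exp_le_exp.2 ((le_abs_self _).trans ?_)
          rw [abs_mul, abs_mul, hσ, one_mul, abs_of_nonneg (by positivity : (0 : ℝ) ≤ k)]
          exact mul_le_mul_of_nonneg_left (abs_vf ht τ p y) (by positivity)
    _ = _ := by simp

/-- The exponential moments of the random logarithm. -/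
theorem exp_moment (ht : WB t w S D) (τ : ℝ) : ∃ C : ℝ, 0 ≤ C ∧ ∀ (σ : ℝ), |σ| = 1 → ∀ k : ℕ,
    3 ≤ k → ∀ x : ℕ, ∫ ω, Real.exp (σ * k * (Vx t w S τ x ω).re) ∂PP ≤
      Real.exp (k * (D * Real.log (Real.log k) + C)) := by
  obtain ⟨M, hM0, hM⟩ := mertens_le
  have hD := ht.nonneg
  have hC1 : 0 ≤ C1 D := by
    unfold C1
    positivity
  refine ⟨D * M + 4 * D + 2 * C1 D, by positivity, fun σ hσ k hk x => ?_⟩
  have hk' : (3 : ℝ) ≤ k := by exact_mod_cast hk
  set P := (Finset.range x).filter Nat.Prime with hP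
  have h1 : ∀ ω, Real.exp (σ * k * (Vx t w S τ x ω).re) =
      ∏ p ∈ P, Real.exp (σ * k * vf t w S τ p (ω p)) := by
    intro ω
    rw [← Real.exp_sum, ← Finset.mul_sum]
    congr 2
    unfold Vx vf
    rw [Complex.re_sum]
  simp only [h1]
  have h2 : ∫ ω, ∏ p ∈ P, Real.exp (σ * k * vf t w S τ p (ω p)) ∂PP =
      ∏ p ∈ P, ∫ y, Real.exp (σ * k * vf t w S τ p y) ∂haar :=
    integral_prod_coord P (fun p y => Real.exp (σ * k * vf t w S τ p y)) fun p =>
      Real.continuous_exp.comp (continuous_const.mul (continuous_vf ht τ p))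
  rw [h2]
  set e : ℕ → ℝ := fun p => if p < k then k * (D * (1 / p)) + 2 * D * k * (1 / (p : ℝ) ^ 2)
    else C1 D * k ^ 2 * (1 / (p : ℝ) ^ 2) with he
  have h3 : ∀ p ∈ P, ∫ y, Real.exp (σ * k * vf t w S τ p y) ∂haar ≤ Real.exp (e p) := by
    intro p hp
    have hpp := (Finset.mem_filter.1 hp).2
    rw [he]
    simp only
    split_ifs with h
    · refine (moment_small ht τ hσ k p).trans (le_of_eq ?_)
      congr 1
      ring
    · exact moment_large ht τ hσ (by omega) (by omega) hpp.two_le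
  refine (Finset.prod_le_prod (fun p _ => integral_nonneg fun y => (Real.exp_pos _).le) h3).trans ?_
  rw [← Real.exp_sum, Real.exp_le_exp]
  have h4 : ∑ p ∈ P, e p ≤ ∑ p ∈ (Finset.range k).filter Nat.Prime,
      (k * (D * (1 / p)) + 2 * D * k * (1 / (p : ℝ) ^ 2)) +
      ∑ p ∈ (Finset.Ico k x).filter Nat.Prime, C1 D * k ^ 2 * (1 / (p : ℝ) ^ 2) := by
    rw [← Finset.sum_filter_add_sum_filter_not P (· < k)]
    refine add_le_add ?_ ?_
    · calc ∑ p ∈ P.filter (· < k), e p = ∑ p ∈ P.filter (· < k),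
            (k * (D * (1 / p)) + 2 * D * k * (1 / (p : ℝ) ^ 2)) := by
            refine Finset.sum_congr rfl fun p hp => ?_
            rw [he]
            simp only
            rw [if_pos (Finset.mem_filter.1 hp).2]
        _ ≤ _ := by
            refine Finset.sum_le_sum_of_subset_of_nonneg (fun p hp => ?_) fun p _ _ => by positivity
            obtain ⟨h5, h6⟩ := Finset.mem_filter.1 hp
            exact Finset.mem_filter.2 ⟨Finset.mem_range.2 h6, (Finset.mem_filter.1 h5).2⟩
    · calc ∑ p ∈ P.filter (fun p => ¬ p < k), e p = ∑ p ∈ P.filter (fun p => ¬ p < k),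
            C1 D * k ^ 2 * (1 / (p : ℝ) ^ 2) := by
            refine Finset.sum_congr rfl fun p hp => ?_
            rw [he]
            simp only
            rw [if_neg (Finset.mem_filter.1 hp).2]
        _ ≤ _ := by
            refine Finset.sum_le_sum_of_subset_of_nonneg (fun p hp => ?_) fun p _ _ => by positivity
            obtain ⟨h5, h6⟩ := Finset.mem_filter.1 hp
            obtain ⟨h7, h8⟩ := Finset.mem_filter.1 h5
            exact Finset.mem_filter.2 ⟨Finset.mem_Ico.2 ⟨by omega, Finset.mem_range.1 h7⟩, h8⟩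
  refine h4.trans ?_
  rw [Finset.sum_add_distrib, ← Finset.mul_sum, ← Finset.mul_sum, ← Finset.mul_sum,
    ← Finset.mul_sum]
  have h5 := hM k hk
  have h6 : ∑ p ∈ (Finset.range k).filter Nat.Prime, (1 : ℝ) / (p : ℝ) ^ 2 ≤ 2 := by
    have h7 := inv_sq_tail (x := 1) le_rfl k
    have h8 : (Finset.range k).filter Nat.Prime ⊆ (Finset.Ico 1 k).filter Nat.Prime := by
      intro p hp
      obtain ⟨h9, h10⟩ := Finset.mem_filter.1 hp
      exact Finset.mem_filter.2 ⟨Finset.mem_Ico.2 ⟨h10.one_le, Finset.mem_range.1 h9⟩, h10⟩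
    refine (Finset.sum_le_sum_of_subset_of_nonneg h8 fun p _ _ => by positivity).trans ?_
    simpa using h7
  have h7 := inv_sq_tail (x := k) (by omega) x
  have h8 : (k : ℝ) * (D * ∑ p ∈ (Finset.range k).filter Nat.Prime, (1 : ℝ) / p) ≤
      k * (D * (Real.log (Real.log k) + M)) :=
    mul_le_mul_of_nonneg_left (mul_le_mul_of_nonneg_left h5 hD) (by positivity)
  have h9 : 2 * D * k * ∑ p ∈ (Finset.range k).filter Nat.Prime, (1 : ℝ) / (p : ℝ) ^ 2 ≤
      2 * D * k * 2 := mul_le_mul_of_nonneg_left h6 (by positivity)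
  have h10 : C1 D * k ^ 2 * ∑ p ∈ (Finset.Ico k x).filter Nat.Prime, (1 : ℝ) / (p : ℝ) ^ 2 ≤
      C1 D * k ^ 2 * (2 / k) := mul_le_mul_of_nonneg_left h7 (by positivity)
  have h11 : C1 D * (k : ℝ) ^ 2 * (2 / k) = 2 * C1 D * k := by
    field_simp
  rw [h11] at h10
  calc _ ≤ (k : ℝ) * (D * (Real.log (Real.log k) + M)) + 2 * D * k * 2 + 2 * C1 D * k :=
        add_le_add (add_le_add h8 h9) h10
    _ = _ := by ring

end Single

end Pool.Agent.T6.H4.AP
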