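import Pool.Agent.T6.H4.AP.Mom

/-!
# The tails of the limit law
-/

set_option autoImplicit false
set_option linter.unusedSectionVars false

namespace Pool.Agent.T6.H4.AP

open MeasureTheory Filter Topology AddCircle UnitAddTorus Polynomial
open Pool.Agent.W350.Edge
open scoped ComplexConjugate ENNReal NNReal

/-- Markov's inequality for a limit law. -/
lemma markov_limit {R : ℕ → (ℕ → UnitAddCircle) → ℂ} {ν : Measure ℂ} [IsProbabilityMeasure ν]
    (hν : ∀ f : BoundedContinuousFunction ℂ ℝ,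
      Tendsto (fun x : ℕ => ∫ ω, f (R x ω) ∂PP) atTop (𝓝 (∫ z, f z ∂ν)))
    {f : ℂ → ℝ} (hf : Continuous f) (hf0 : ∀ z, 0 ≤ f z) {c : ℝ} (hc : 0 < c)
    (hfc : ∀ z, f z ≤ c) {K : ℝ} (hK : ∀ᶠ x in atTop, ∫ ω, f (R x ω) ∂PP ≤ K) :
    ν.real {z | c ≤ f z} ≤ K / c := by
  set F : BoundedContinuousFunction ℂ ℝ := BoundedContinuousFunction.ofNormedAddCommGroup f hf c
    (fun z => by rw [Real.norm_of_nonneg (hf0 z)]; exact hfc z) with hF
  have h1 : ∫ z, f z ∂ν ≤ K := le_of_tendsto (hν F) hK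
  have hi : Integrable f ν := Integrable.of_bound hf.aestronglyMeasurable c
    (Eventually.of_forall fun z => by rw [Real.norm_of_nonneg (hf0 z)]; exact hfc z)
  have h2 := mul_meas_ge_le_integral_of_nonneg (μ := ν) (Eventually.of_forall hf0) hi c
  rw [le_div_iff₀ hc, mul_comm]
  exact h2.trans h1

/-- The optimisation. -/
lemma optimise {D C : ℝ} (hD : 0 < D) : ∃ c : ℝ, 0 < c ∧ ∃ Λ : ℝ, 1 ≤ Λ ∧ ∀ lam : ℝ, Λ ≤ lam →
    ∃ k : ℕ, 3 ≤ k ∧ Real.exp (k * (D * Real.log (Real.log k) + C)) / lam ^ k ≤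
      Real.exp (-Real.exp (c * lam ^ (1 / D))) := by
  set α : ℝ := Real.exp (-((C + 1) / D)) with hα
  have hα0 : 0 < α := Real.exp_pos _
  refine ⟨α / 2, by positivity, max 1 ((4 / α) ^ D), le_max_left _ _, fun lam hlam => ?_⟩
  have hlam1 : 1 ≤ lam := (le_max_left _ _).trans hlam
  have hlam0 : 0 < lam := by linarith
  set y : ℝ := α * lam ^ (1 / D) with hy
  have hy4 : 4 ≤ y := by
    have h1 : (4 / α) ^ D ≤ lam := (le_max_right _ _).trans hlam
    have h2 : ((4 / α) ^ D) ^ (1 / D) ≤ lam ^ (1 / D) :=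
      Real.rpow_le_rpow (by positivity) h1 (by positivity)
    rw [← Real.rpow_mul (by positivity), mul_one_div_cancel hD.ne', Real.rpow_one] at h2
    rw [div_le_iff₀ hα0] at h2
    rw [hy]
    linarith
  have hexp4 : 5 ≤ Real.exp y := by
    have := Real.add_one_le_exp y
    linarith
  set k : ℕ := ⌊Real.exp y⌋₊ with hk
  have hk3 : 3 ≤ k := by
    rw [hk]
    refine Nat.le_floor ?_
    push_cast
    linarith
  have hk3' : (3 : ℝ) ≤ k := by exact_mod_cast hk3
  have hkle : (k : ℝ) ≤ Real.exp y := Nat.floor_le (Real.exp_pos _).le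
  have hkge : Real.exp y - 1 ≤ k := by
    have := Nat.lt_floor_add_one (Real.exp y)
    rw [← hk] at this
    linarith
  refine ⟨k, hk3, ?_⟩
  have hlogk : Real.log k ≤ y := by
    have := Real.log_le_log (by linarith) hkle
    rwa [Real.log_exp] at this
  have hlogk0 : 1 < Real.log k := by
    rw [Real.lt_log_iff_exp_lt (by linarith)]
    have := Real.exp_one_lt_d9
    linarith
  have hll : Real.log (Real.log k) ≤ Real.log y := Real.log_le_log (by linarith) hlogk
  have hlogy : Real.log y = -((C + 1) / D) + (1 / D) * Real.log lam := by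
    rw [hy, Real.log_mul hα0.ne' (by positivity), hα, Real.log_exp, Real.log_rpow hlam0]
  have h1 : D * Real.log (Real.log k) + C ≤ Real.log lam - 1 := by
    have h2 : D * Real.log (Real.log k) ≤ D * Real.log y := mul_le_mul_of_nonneg_left hll hD.le
    rw [hlogy] at h2
    have h3 : D * (-((C + 1) / D) + (1 / D) * Real.log lam) = -(C + 1) + Real.log lam := by
      field_simp
    linarith
  have h2 : lam ^ k = Real.exp (k * Real.log lam) := by
    rw [mul_comm, Real.exp_mul, Real.exp_log hlam0, Real.rpow_natCast]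
  rw [h2, ← Real.exp_sub, Real.exp_le_exp]
  have h3 : (k : ℝ) * (D * Real.log (Real.log k) + C) ≤ k * (Real.log lam - 1) :=
    mul_le_mul_of_nonneg_left h1 (by positivity)
  have h4 : Real.exp (α / 2 * lam ^ (1 / D)) ≤ Real.exp y - 1 := by
    have h5 : α / 2 * lam ^ (1 / D) = y / 2 := by
      rw [hy]
      ring
    have h6 : Real.exp y = Real.exp (y / 2) * Real.exp (y / 2) := by
      rw [← Real.exp_add]
      congr 1
      ring
    have h7 : 3 ≤ Real.exp (y / 2) := by
      have := Real.add_one_le_exp (y / 2)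
      linarith
    rw [h5, h6]
    nlinarith
  linarith

variable {t : ℕ → ℕ → ℂ} {S : Finset ℕ} {D w : ℝ} {B : ℕ → ℂ[X]}

lemma bb_log_bound (hB : ∀ p ∈ S, p.Prime → ∀ r : ℝ, (B p).eval ((p : ℂ) ^ (-(sp w r))) ≠ 0)
    (τ : ℝ) : ∃ L : ℝ, 0 ≤ L ∧ ∀ ω, |Real.log ‖bb B w S τ ω‖| ≤ L := by
  have hc : Continuous fun ω => |Real.log ‖bb B w S τ ω‖| :=
    ((bb_isCyl hB τ).continuous.norm.log fun ω => norm_ne_zero_iff.2 (bb_ne hB τ ω)).abs
  obtain ⟨ω₀, _, hω₀⟩ := isCompact_univ.exists_isMaxOn ⟨0, Set.mem_univ _⟩ hc.continuousOn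
  exact ⟨_, abs_nonneg _, fun ω => hω₀ (Set.mem_univ ω)⟩

/-- The moments of the random products. -/
lemma prod_moment (ht : WB t w S D)
    (hB : ∀ p ∈ S, p.Prime → ∀ r : ℝ, (B p).eval ((p : ℂ) ^ (-(sp w r))) ≠ 0) (τ : ℝ)
    {F : ℕ → UnitAddCircle → ℂ} (hF : IsFac t B w S τ F) : ∃ C : ℝ, ∃ N : ℕ, ∀ (σ : ℝ), |σ| = 1 →
      ∀ k : ℕ, 3 ≤ k → ∀ x : ℕ, N ≤ x →
        (∀ ω : ℕ → UnitAddCircle, (∏ p ∈ Nat.primesBelow x, F p (ω p)) ≠ 0) ∧
        Integrable (fun ω => Real.exp (σ * k * Real.log ‖∏ p ∈ Nat.primesBelow x, F p (ω p)‖)) PP ∧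
        ∫ ω, Real.exp (σ * k * Real.log ‖∏ p ∈ Nat.primesBelow x, F p (ω p)‖) ∂PP ≤
          Real.exp (k * (D * Real.log (Real.log k) + C)) := by
  obtain ⟨C, hC0, hC⟩ := exp_moment ht τ
  obtain ⟨L, hL0, hL⟩ := bb_log_bound (S := S) hB τ
  obtain ⟨N, hN⟩ := exists_bound S
  refine ⟨C + L, N, fun σ hσ k hk x hx => ?_⟩
  have h1 : ∀ ω, ∏ p ∈ Nat.primesBelow x, F p (ω p) =
      bb B w S τ ω * Complex.exp (Vx t w S τ x ω) := prod_fac τ (hN x hx) F hF.bad hF.good
  have h2 : ∀ ω, Real.log ‖∏ p ∈ Nat.primesBelow x, F p (ω p)‖ =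
      Real.log ‖bb B w S τ ω‖ + (Vx t w S τ x ω).re := by
    intro ω
    rw [h1, norm_mul, Complex.norm_exp, Real.log_mul (norm_ne_zero_iff.2 (bb_ne hB τ ω))
      (Real.exp_pos _).ne', Real.log_exp]
  have hcb : Continuous fun ω => Real.log ‖bb B w S τ ω‖ :=
    (bb_isCyl hB τ).continuous.norm.log fun ω => norm_ne_zero_iff.2 (bb_ne hB τ ω)
  have hcv : Continuous fun ω => (Vx t w S τ x ω).re :=
    Complex.continuous_re.comp (Vx_isCyl ht τ x).continuous
  have i1 : Integrable (fun ω => Real.exp (σ * k * (Real.log ‖bb B w S τ ω‖ +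
      (Vx t w S τ x ω).re))) PP :=
    (Real.continuous_exp.comp (continuous_const.mul (hcb.add hcv))).integrable_of_hasCompactSupport
      (HasCompactSupport.of_compactSpace _)
  have i2 : Integrable (fun ω => Real.exp (k * L) * Real.exp (σ * k * (Vx t w S τ x ω).re)) PP :=
    (continuous_const.mul (Real.continuous_exp.comp (continuous_const.mul
      hcv))).integrable_of_hasCompactSupport (HasCompactSupport.of_compactSpace _)
  refine ⟨fun ω => ?_, ?_, ?_⟩
  · rw [h1]
    exact mul_ne_zero (bb_ne hB τ ω) (Complex.exp_ne_zero _)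
  · simp only [h2]
    exact i1
  · simp only [h2]
    calc ∫ ω, Real.exp (σ * k * (Real.log ‖bb B w S τ ω‖ + (Vx t w S τ x ω).re)) ∂PP
        ≤ ∫ ω, Real.exp (k * L) * Real.exp (σ * k * (Vx t w S τ x ω).re) ∂PP := by
          refine integral_mono i1 i2 fun ω => ?_
          simp only
          rw [← Real.exp_add, Real.exp_le_exp, mul_add]
          have h3 : σ * k * Real.log ‖bb B w S τ ω‖ ≤ k * L := by
            refine (le_abs_self _).trans ?_
            rw [abs_mul, abs_mul, hσ, one_mul, abs_of_nonneg (by positivity : (0 : ℝ) ≤ k)]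
            exact mul_le_mul_of_nonneg_left (hL ω) (by positivity)
          linarith
      _ ≤ Real.exp (k * L) * Real.exp (k * (D * Real.log (Real.log k) + C)) := by
          rw [integral_const_mul]
          exact mul_le_mul_of_nonneg_left (hC σ hσ k hk x) (Real.exp_pos _).le
      _ = _ := by
          rw [← Real.exp_add]
          congr 1
          ring

/-- **The tails of the limit law.** -/
theorem tails (ht : WB t w S D) (hD : 0 < D)
    (hB : ∀ p ∈ S, p.Prime → ∀ r : ℝ, (B p).eval ((p : ℂ) ^ (-(sp w r))) ≠ 0) (τ : ℝ)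
    {F : ℕ → UnitAddCircle → ℂ} (hF : IsFac t B w S τ F) : ∃ c : ℝ, 0 < c ∧ ∃ Λ : ℝ, 1 ≤ Λ ∧
      ∀ (ν : Measure ℂ) [IsProbabilityMeasure ν], (∀ f : BoundedContinuousFunction ℂ ℝ,
        Tendsto (fun x : ℕ => ∫ ω, f (∏ p ∈ Nat.primesBelow x, F p (ω p)) ∂PP) atTop
          (𝓝 (∫ z, f z ∂ν))) → ∀ lam : ℝ, Λ ≤ lam →
        ν.real {z | lam ≤ ‖z‖} ≤ Real.exp (-Real.exp (c * lam ^ (1 / D))) ∧
        ν.real {z | ‖z‖ ≤ 1 / lam} ≤ Real.exp (-Real.exp (c * lam ^ (1 / D))) := by
  obtain ⟨C, N, hC⟩ := prod_moment ht hB τ hF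
  obtain ⟨c, hc, Λ, hΛ, hopt⟩ := optimise (C := C) hD
  refine ⟨c, hc, Λ, hΛ, fun ν _ hν lam hlam => ?_⟩
  obtain ⟨k, hk, hkle⟩ := hopt lam hlam
  have hlam0 : 0 < lam := by linarith
  have hck : 0 < lam ^ k := pow_pos hlam0 k
  have hexp : ∀ (σ : ℝ) (z : ℂ), z ≠ 0 → Real.exp (σ * k * Real.log ‖z‖) = (‖z‖ ^ k) ^ σ := by
    intro σ z hz
    have hz' : 0 < ‖z‖ := norm_pos_iff.2 hz
    rw [← Real.rpow_natCast, ← Real.rpow_mul hz'.le, Real.rpow_def_of_pos hz']
    congr 1
    ring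
  constructor
  · have h1 := markov_limit (R := fun x ω => ∏ p ∈ Nat.primesBelow x, F p (ω p)) hν
      (f := fun z => min (‖z‖ ^ k) (lam ^ k)) (by fun_prop) (fun z => by positivity) hck
      (fun z => min_le_right _ _) (K := Real.exp (k * (D * Real.log (Real.log k) + C))) (by
        filter_upwards [eventually_ge_atTop N] with x hx
        obtain ⟨h2, h3, h4⟩ := hC 1 (by simp) k hk x hx
        refine le_trans ?_ h4
        refine integral_mono_of_nonneg (Eventually.of_forall fun ω => ?_) h3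
          (Eventually.of_forall fun ω => ?_)
        · show (0 : ℝ) ≤ min _ _
          positivity
        · simp only
          rw [hexp 1 _ (h2 ω), Real.rpow_one]
          exact min_le_left _ _)
    refine le_trans ?_ (h1.trans hkle)
    refine measureReal_mono (fun z hz => ?_)
    show lam ^ k ≤ min (‖z‖ ^ k) (lam ^ k)
    exact le_min (pow_le_pow_left₀ hlam0.le hz k) le_rfl
  · have hmax : ∀ z : ℂ, 0 < max (‖z‖ ^ k) ((lam ^ k)⁻¹) := fun z =>
      lt_max_of_lt_right (inv_pos.2 hck)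
    have h1 := markov_limit (R := fun x ω => ∏ p ∈ Nat.primesBelow x, F p (ω p)) hν
      (f := fun z => (max (‖z‖ ^ k) ((lam ^ k)⁻¹))⁻¹)
      (Continuous.inv₀ (by fun_prop) fun z => (hmax z).ne')
      (fun z => (inv_pos.2 (hmax z)).le) hck
      (fun z => inv_le_of_inv_le₀ hck (le_max_right _ _))
      (K := Real.exp (k * (D * Real.log (Real.log k) + C))) (by
        filter_upwards [eventually_ge_atTop N] with x hx
        obtain ⟨h2, h3, h4⟩ := hC (-1) (by simp) k hk x hx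
        refine le_trans ?_ h4
        refine integral_mono_of_nonneg (Eventually.of_forall fun ω => ?_) h3
          (Eventually.of_forall fun ω => ?_)
        · exact (inv_pos.2 (hmax _)).le
        · simp only
          have h5 : 0 < ‖∏ p ∈ Nat.primesBelow x, F p (ω p)‖ ^ k :=
            pow_pos (norm_pos_iff.2 (h2 ω)) k
          rw [hexp (-1) _ (h2 ω), Real.rpow_neg_one]
          exact inv_anti₀ h5 (le_max_left _ _))
    refine le_trans ?_ (h1.trans hkle)
    refine measureReal_mono (fun z hz => ?_)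
    show lam ^ k ≤ (max (‖z‖ ^ k) ((lam ^ k)⁻¹))⁻¹
    refine le_inv_of_le_inv₀ (hmax z) (max_le ?_ le_rfl)
    rw [← inv_pow]
    refine pow_le_pow_left₀ (norm_nonneg _) ?_ k
    rw [← one_div]
    exact hz

end Pool.Agent.T6.H4.AP
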