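import Pool.Agent.T6.H4.AP.Defs
import Pool.Agent.T6.H4.AP.TailLaw

/-!
# Motives as systems with a weight bound
-/

set_option autoImplicit false
set_option linter.unusedSectionVars false

namespace Pool.Agent.T6.H4.AP

open MeasureTheory Filter Topology AddCircle UnitAddTorus Polynomial
open Pool.Agent.W350.Edge
open Pool.Agent.Y149.TL (Motive IsEuler edge)
open Pool.Agent.Y149.CM (LFun)
open scoped ComplexConjugate ENNReal NNReal

/-- The logarithm of a product over a multiset. -/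
lemma log_multiset (δ : Multiset ℂ) (z : ℂ) (h : ∀ α ∈ δ, ‖α * z‖ < 1) :
    ∃ L : ℂ, HasSum (fun m : ℕ => (δ.map fun α => α ^ (m + 1)).sum * z ^ (m + 1) / ((m : ℂ) + 1)) L ∧
      Complex.exp L = ((δ.map fun α => 1 - α * z).prod)⁻¹ := by
  induction δ using Multiset.induction with
  | empty => exact ⟨0, by simp, by simp⟩
  | cons α δ ih =>
    obtain ⟨L, hL1, hL2⟩ := ih fun β hβ => h β (Multiset.mem_cons_of_mem hβ)
    have hα := h α (Multiset.mem_cons_self α δ)
    have h1 := Complex.hasSum_taylorSeries_neg_log hα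
    have h2 : HasSum (fun m : ℕ => (α * z) ^ (m + 1) / ((m + 1 : ℕ) : ℂ))
        (-Complex.log (1 - α * z)) := by
      have h3 := (hasSum_nat_add_iff' 1).2 h1
      simpa using h3
    refine ⟨-Complex.log (1 - α * z) + L, (h2.add hL1).congr_fun fun m => ?_, ?_⟩
    · simp only [Multiset.map_cons, Multiset.sum_cons]
      push_cast
      rw [mul_pow]
      ring
    · have h3 : 1 - α * z ≠ 0 := by
        intro h4
        have h5 : α * z = 1 := by linear_combination -h4
        rw [h5, norm_one] at hα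
        exact lt_irrefl _ hα
      rw [Complex.exp_add, Complex.exp_neg, Complex.exp_log h3, hL2]
      simp only [Multiset.map_cons, Multiset.prod_cons]
      rw [mul_inv]

/-- The primes which are excluded. -/
def badP (H : Motive) (B : Nat.Primes → ℂ[X]) : Set Nat.Primes :=
  {p | ¬ (((∀ z ∈ H.frob p, ‖z‖ = (p : ℝ) ^ ((H.weight : ℝ) / 2)) ∧
    Multiset.card (H.frob p) = H.rank) ∧
    ∀ z : ℂ, (B p).eval z = ((H.frob p).map fun α => 1 - α * z).prod)}

lemma badP_finite {H : Motive} {B : Nat.Primes → ℂ[X]} (hB : IsEuler H.weight H.frob B) :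
    (badP H B).Finite := by
  have h1 := H.pure.and hB.1
  exact h1

open Classical in
/-- The bad primes. -/
noncomputable def SS (H : Motive) (B : Nat.Primes → ℂ[X]) : Finset ℕ :=
  if h : (badP H B).Finite then h.toFinset.image (fun p : Nat.Primes => (p : ℕ)) else ∅

lemma mem_SS {H : Motive} {B : Nat.Primes → ℂ[X]} (hB : IsEuler H.weight H.frob B)
    (p : Nat.Primes) : (p : ℕ) ∈ SS H B ↔ p ∈ badP H B := by
  unfold SS
  rw [dif_pos (badP_finite hB), Finset.mem_image]
  constructor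
  · rintro ⟨q, hq, hqp⟩
    have h1 : q = p := Subtype.ext hqp
    rw [← h1]
    exact (Set.Finite.mem_toFinset _).1 hq
  · exact fun h => ⟨p, (Set.Finite.mem_toFinset _).2 h, rfl⟩

open Classical in
/-- The traces. -/
noncomputable def tr (H : Motive) (p m : ℕ) : ℂ :=
  if h : p.Prime then ((H.frob ⟨p, h⟩).map fun α => α ^ m).sum else 0

open Classical in
/-- The polynomials. -/
noncomputable def BN (B : Nat.Primes → ℂ[X]) (p : ℕ) : ℂ[X] := if h : p.Prime then B ⟨p, h⟩ else 1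

lemma BN_coe (B : Nat.Primes → ℂ[X]) (p : Nat.Primes) : BN B p = B p := by
  unfold BN
  rw [dif_pos p.2]
  rfl

lemma tr_coe (H : Motive) (p : Nat.Primes) (m : ℕ) :
    tr H p m = ((H.frob p).map fun α => α ^ m).sum := by
  unfold tr
  rw [dif_pos p.2]
  rfl

variable {H : Motive} {B : Nat.Primes → ℂ[X]}

lemma good_of_not_mem (hB : IsEuler H.weight H.frob B) {p : Nat.Primes} (hp : (p : ℕ) ∉ SS H B) :
    ((∀ z ∈ H.frob p, ‖z‖ = (p : ℝ) ^ ((H.weight : ℝ) / 2)) ∧
    Multiset.card (H.frob p) = H.rank) ∧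
    ∀ z : ℂ, (B p).eval z = ((H.frob p).map fun α => 1 - α * z).prod := by
  rw [mem_SS hB] at hp
  exact not_not.1 hp

lemma wb (hB : IsEuler H.weight H.frob B) : WB (tr H) (H.weight : ℝ) (SS H B) (H.rank : ℝ) := by
  intro p hp hpS m
  have h1 := good_of_not_mem hB (p := ⟨p, hp⟩) hpS
  have h2 : tr H p (m + 1) = ((H.frob ⟨p, hp⟩).map fun α => α ^ (m + 1)).sum := tr_coe H ⟨p, hp⟩ _
  rw [h2]
  have h3 : ∀ δ : Multiset ℂ, (∀ z ∈ δ, ‖z‖ = (p : ℝ) ^ ((H.weight : ℝ) / 2)) →
      ‖(δ.map fun α => α ^ (m + 1)).sum‖ ≤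
        Multiset.card δ * ((p : ℝ) ^ ((H.weight : ℝ) / 2)) ^ (m + 1) := by
    intro δ
    induction δ using Multiset.induction with
    | empty => intro _; simp
    | cons α δ ih =>
      intro h
      rw [Multiset.map_cons, Multiset.sum_cons, Multiset.card_cons]
      refine (norm_add_le _ _).trans ?_
      rw [norm_pow, h α (Multiset.mem_cons_self α δ)]
      have h4 := ih fun z hz => h z (Multiset.mem_cons_of_mem hz)
      push_cast
      linarith
  have h4 := h3 _ h1.1.1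
  rw [h1.1.2] at h4
  exact h4

lemma sp_edge (w : ℤ) (τ : ℝ) : sp (w : ℝ) τ = edge w τ := by
  unfold sp edge
  push_cast
  rfl

lemma BN_ne (hB : IsEuler H.weight H.frob B) : ∀ p ∈ SS H B, p.Prime → ∀ r : ℝ,
    (BN B p).eval ((p : ℂ) ^ (-(sp (H.weight : ℝ) r))) ≠ 0 := by
  intro p _ hp r
  have h1 := hB.2 ⟨p, hp⟩ r
  have h2 : BN B p = B ⟨p, hp⟩ := BN_coe B ⟨p, hp⟩
  rw [h2, sp_edge]
  exact h1

lemma fac_motive (hB : IsEuler H.weight H.frob B) (p : Nat.Primes) {s : ℂ}
    (hs : (H.weight : ℝ) / 2 + 1 ≤ s.re) :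
    fac (tr H) (SS H B) (BN B) s p = ((B p).eval ((p : ℂ) ^ (-s)))⁻¹ := by
  unfold fac
  split_ifs with h
  · rw [BN_coe]
  · have h1 := good_of_not_mem hB h
    have hp0 : (0 : ℝ) < p := by exact_mod_cast p.2.pos
    have hp1 : (1 : ℝ) < p := by exact_mod_cast p.2.one_lt
    have h2 : ∀ α ∈ H.frob p, ‖α * (p : ℂ) ^ (-s)‖ < 1 := by
      intro α hα
      rw [norm_mul, h1.1.1 α hα, Complex.norm_natCast_cpow_of_pos p.2.pos, ← Real.rpow_add hp0]
      refine Real.rpow_lt_one_of_one_lt_of_neg hp1 ?_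
      rw [Complex.neg_re]
      linarith
    obtain ⟨L, hL1, hL2⟩ := log_multiset (H.frob p) ((p : ℂ) ^ (-s)) h2
    rw [h1.2, ← hL2]
    congr 1
    unfold logF
    have h3 : ∀ m : ℕ, tr H p (m + 1) * (p : ℂ) ^ (-((m + 1 : ℂ) * s)) / (m + 1 : ℂ) =
        ((H.frob p).map fun α => α ^ (m + 1)).sum * ((p : ℂ) ^ (-s)) ^ (m + 1) / ((m : ℂ) + 1) := by
      intro m
      rw [tr_coe, ← Complex.cpow_nat_mul]
      congr 3
      push_cast
      ring
    rw [tsum_congr h3]
    exact hL1.tsum_eq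

open Classical in
/-- The random factors. -/
noncomputable def FN (H : Motive) (B : Nat.Primes → ℂ[X]) (τ : ℝ) (p : ℕ) (y : UnitAddCircle) : ℂ :=
  ((BN B p).eval ((p : ℂ) ^ (-(edge H.weight τ)) * X y))⁻¹

lemma isFac (hB : IsEuler H.weight H.frob B) (τ : ℝ) :
    IsFac (tr H) (BN B) (H.weight : ℝ) (SS H B) τ (FN H B τ) where
  bad p _ _ y := by
    unfold FN bf
    rw [sp_edge]
  good p hpS hp y := by
    have h1 := good_fac (B := BN B) (wb hB) τ hp hpS (fun z => ((BN B p).eval z)⁻¹) (fun r => by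
      have h2 := fac_motive hB ⟨p, hp⟩ (s := sp (H.weight : ℝ) r) (by rw [sp_re])
      have h3 : BN B p = B ⟨p, hp⟩ := BN_coe B ⟨p, hp⟩
      rw [h3]
      exact h2.symm) y
    unfold FN
    rw [← sp_edge]
    exact h1

lemma prod_primes {M : Type*} [CommMonoid M] (x : ℕ) (f : ℕ → M) :
    ∏ p ∈ (Finset.range x).subtype Nat.Prime, f p = ∏ p ∈ Nat.primesBelow x, f p :=
  Finset.prod_subtype_eq_prod_filter f

lemma randomProduct_eq (H : Motive) (B : Nat.Primes → ℂ[X]) (τ : ℝ) (x : ℕ)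
    (ω : ℕ → UnitAddCircle) : randomProduct H.weight B τ x ω =
      ∏ p ∈ Nat.primesBelow x, FN H B τ p (ω p) := by
  rw [← prod_primes]
  unfold randomProduct
  refine Finset.prod_congr rfl fun p _ => ?_
  unfold FN
  rw [show BN B ((p : ℕ)) = B p from BN_coe B p]

lemma partialProduct_eq (H : Motive) (B : Nat.Primes → ℂ[X]) (τ r : ℝ) (x : ℕ) :
    partialProduct B x (edge H.weight (τ + r)) =
      ∏ p ∈ Nat.primesBelow x, FN H B τ p (flow r p) := by
  rw [← prod_primes]
  unfold partialProduct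
  refine Finset.prod_congr rfl fun p _ => ?_
  unfold FN
  rw [show BN B ((p : ℕ)) = B p from BN_coe B p, ← sp_edge, ← sp_edge, cpow_flow _ _ _ p.2]

lemma LFun_eq (hB : IsEuler H.weight H.frob B) {s : ℂ} (hs : (H.weight : ℝ) / 2 + 1 ≤ s.re) :
    LFun B s = ∏' p : Nat.Primes, fac (tr H) (SS H B) (BN B) s p := by
  unfold LFun
  exact tprod_congr fun p => (fac_motive hB p hs).symm

end Pool.Agent.T6.H4.AP
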