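import Pool.Agent.T6.H4.AP.KW

/-!
# Independent uniformly distributed random variables on the circle
-/

set_option autoImplicit false

namespace Pool.Agent.T6.H4.AP

open MeasureTheory Filter Topology AddCircle UnitAddTorus
open scoped ComplexConjugate

/-- The probability space: the coordinates `ω n` are independent and uniformly distributed on
`ℝ/ℤ`. -/
noncomputable def PP : Measure (ℕ → UnitAddCircle) := Measure.infinitePi fun _ => haar

instance : IsProbabilityMeasure PP := by
  unfold PP
  infer_instance

lemma map_restrict (S : Finset ℕ) : PP.map S.restrict = Measure.pi fun _ : S => haar := by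
  unfold PP
  exact Measure.infinitePi_map_restrict _

lemma integral_restrict {E : Type*} [NormedAddCommGroup E] [NormedSpace ℝ E] (S : Finset ℕ)
    {f : (S → UnitAddCircle) → E} (hf : AEStronglyMeasurable f (Measure.pi fun _ : S => haar)) :
    ∫ ω, f (S.restrict ω) ∂PP = ∫ x, f x ∂(Measure.pi fun _ : S => haar) := by
  rw [← map_restrict] at hf ⊢
  rw [integral_map (S.measurable_restrict).aemeasurable hf]

/-- Products of functions of different coordinates. -/
lemma integral_prod_coord {𝕜 : Type*} [RCLike 𝕜] (S : Finset ℕ) (g : ℕ → UnitAddCircle → 𝕜)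
    (hg : ∀ p, Continuous (g p)) :
    ∫ ω, ∏ p ∈ S, g p (ω p) ∂PP = ∏ p ∈ S, ∫ x, g p x ∂haar := by
  have h1 : (fun ω : ℕ → UnitAddCircle => ∏ p ∈ S, g p (ω p)) =
      fun ω => (fun x : S → UnitAddCircle => ∏ p : S, g p (x p)) (S.restrict ω) := by
    funext ω
    exact (Finset.prod_coe_sort S fun p => g p (ω p)).symm
  have hc : Continuous fun x : S → UnitAddCircle => ∏ p : S, g p (x p) :=
    continuous_finsetProd _ fun p _ => (hg p).comp (continuous_apply p)
  rw [h1, integral_restrict S hc.aestronglyMeasurable,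
    integral_fintype_prod_eq_prod (𝕜 := 𝕜) (fun (p : S) (x : UnitAddCircle) => g p x)]
  exact Finset.prod_coe_sort S fun p => ∫ x, g p x ∂haar

lemma integral_X : ∫ x, X x ∂haar = 0 := by
  have h3 := fourierCoeff_fourier (T := (1 : ℝ)) 1
  have h4 := congrFun h3 0
  unfold fourierCoeff at h4
  simp only [neg_zero, fourier_zero, one_smul] at h4
  simp only [X_eq]
  rw [h4]
  simp

lemma orth {p q : ℕ} (h : p ≠ q) : ∫ ω, X (ω p) * conj (X (ω q)) ∂PP = 0 := by
  classical
  have h1 := integral_prod_coord {p, q} (fun n x => if n = p then X x else conj (X x)) (fun n => by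
    by_cases hn : n = p
    · simp only [hn, if_true]
      exact continuous_X
    · simp only [hn, if_false]
      exact Complex.continuous_conj.comp continuous_X)
  simp only [Finset.prod_pair h, if_true, h.symm, if_false] at h1
  rw [h1, integral_X, zero_mul]

/-- The mean square of a finite random sum. -/
lemma mean_sq (F : Finset ℕ) (c : ℕ → ℂ) :
    ∫ ω, ‖∑ p ∈ F, c p * X (ω p)‖ ^ 2 ∂PP = ∑ p ∈ F, ‖c p‖ ^ 2 := by
  classical
  have hX : ∀ p : ℕ, Continuous fun ω : ℕ → UnitAddCircle => X (ω p) :=
    fun p => continuous_X.comp (continuous_apply p)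
  have hexp : ∀ ω : ℕ → UnitAddCircle, ((‖∑ p ∈ F, c p * X (ω p)‖ ^ 2 : ℝ) : ℂ) =
      ∑ p ∈ F, ∑ q ∈ F, c p * conj (c q) * (X (ω p) * conj (X (ω q))) := by
    intro ω
    rw [← Complex.normSq_eq_norm_sq, Complex.normSq_eq_conj_mul_self, mul_comm, map_sum,
      Finset.sum_mul_sum]
    refine Finset.sum_congr rfl fun p _ => Finset.sum_congr rfl fun q _ => ?_
    rw [map_mul]
    ring
  have hint : ∀ p q : ℕ, Integrable (fun ω : ℕ → UnitAddCircle =>
      c p * conj (c q) * (X (ω p) * conj (X (ω q)))) PP := by
    intro p q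
    refine Integrable.of_bound (C := ‖c p * conj (c q)‖) ?_ ?_
    · have h1 : Continuous fun ω : ℕ → UnitAddCircle =>
          c p * conj (c q) * (X (ω p) * conj (X (ω q))) :=
        continuous_const.mul ((hX p).mul (Complex.continuous_conj.comp (hX q)))
      exact h1.aestronglyMeasurable
    · refine Eventually.of_forall fun ω => ?_
      rw [norm_mul, norm_mul (X _), RCLike.norm_conj (X (ω q)), norm_X, norm_X, one_mul, mul_one]
  have h2 : ((∫ ω, ‖∑ p ∈ F, c p * X (ω p)‖ ^ 2 ∂PP : ℝ) : ℂ) =
      ((∑ p ∈ F, ‖c p‖ ^ 2 : ℝ) : ℂ) := by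
    rw [← integral_complex_ofReal]
    simp only [hexp]
    rw [integral_finsetSum _ fun p _ => integrable_finsetSum _ fun q _ => hint p q]
    push_cast
    refine Finset.sum_congr rfl fun p hp => ?_
    rw [integral_finsetSum _ fun q _ => hint p q, Finset.sum_eq_single p]
    · rw [integral_const_mul]
      have h3 : ∀ ω : ℕ → UnitAddCircle, X (ω p) * conj (X (ω p)) = 1 := by
        intro ω
        rw [Complex.mul_conj, Complex.normSq_eq_norm_sq, norm_X]
        norm_num
      simp only [h3]
      rw [integral_const]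
      simp only [probReal_univ, one_smul, mul_one]
      rw [Complex.mul_conj, Complex.normSq_eq_norm_sq]
      push_cast
      ring
    · intro q _ hq
      rw [integral_const_mul, orth hq.symm, mul_zero]
    · intro h
      exact absurd hp h
  exact_mod_cast h2

end Pool.Agent.T6.H4.AP
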